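import Pool.Agent.H.MP_22db8c_al.Rel

set_option autoImplicit false

/-!
MP_22db8c_al: the abelian scalars vanish.
-/

namespace Pool.MP_22db8c_al

open RegularWreathProduct Matrix
open Pool.MP_59b15d_al.H76 (F2 XX YY VV VV_0 VV_1)

/-- exponent sum of the first generator -/
def E1 (u : F2) : ℤ :=
  Multiplicative.toAdd (FreeGroup.lift ![Multiplicative.ofAdd (1 : ℤ), 1] u)

/-- exponent sum of the second generator -/
def E2' (u : F2) : ℤ :=
  Multiplicative.toAdd (FreeGroup.lift ![1, Multiplicative.ofAdd (1 : ℤ)] u)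

theorem lift_pair {M : Type*} [CommGroup M] (x y : M) (u : F2) :
    FreeGroup.lift ![x, y] u = x ^ E1 u * y ^ E2' u := by
  refine hom_ext2 (f := FreeGroup.lift ![x, y])
    (g := (zpowersHom M x).comp (FreeGroup.lift ![Multiplicative.ofAdd (1 : ℤ), 1]) *
      (zpowersHom M y).comp (FreeGroup.lift ![1, Multiplicative.ofAdd (1 : ℤ)])) ?_ ?_ u
  · simp
  · simp

/-- the group of exponents -/
abbrev MZ3 : Type := Multiplicative ℤ × Multiplicative ℤ × Multiplicative ℤ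

def tt : MZ3 × MZ3 × MZ3 :=
  ((Multiplicative.ofAdd 1, 1, 1), (1, Multiplicative.ofAdd 1, 1), (1, 1, Multiplicative.ofAdd 1))

/-- the exponents of the first entry -/
def K0 (h : F2) : ℤ := Multiplicative.toAdd ((psi tt h).left 1).1
def K1 (h : F2) : ℤ := Multiplicative.toAdd ((psi tt h).left 1).2.1
def K3 (h : F2) : ℤ := Multiplicative.toAdd ((psi tt h).left 1).2.2

theorem left_one {M : Type*} [CommGroup M] (c : M × M × M) (h : F2) :
    (psi c h).left 1 = c.1 ^ K0 h * c.2.1 ^ K1 h * c.2.2 ^ K3 h := by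
  set φ : MZ3 →* M := (zpowersHom M c.1).comp (MonoidHom.fst _ _) *
    (zpowersHom M c.2.1).comp ((MonoidHom.fst _ _).comp (MonoidHom.snd _ _)) *
    (zpowersHom M c.2.2).comp ((MonoidHom.snd _ _).comp (MonoidHom.snd _ _)) with hφ
  have h1 := psi_map φ tt h
  have h2 : φ ((psi tt h).left 1) = (psi (φ tt.1, φ tt.2.1, φ tt.2.2) h).left 1 :=
    congrArg (fun a : M ≀ᵣ V => a.left 1) h1
  have h3 : (φ tt.1, φ tt.2.1, φ tt.2.2) = c := by
    refine Prod.ext ?_ (Prod.ext ?_ ?_) <;> simp [hφ, tt]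
  rw [h3] at h2
  rw [← h2]
  rfl

variable {R : Type*} [CommRing R]

theorem act_smul (c : Rˣ × Rˣ × Rˣ) (u : F2) (s : R) (z : Fin 2 → R) :
    act c u (s • z) = s • act c u z := by
  rw [act, act, Matrix.smul_vecMul]

/-- eigenvectors -/
theorem act_row (c : Rˣ × Rˣ × Rˣ) (x y : Rˣ) (z : Fin 2 → R)
    (hx : z ᵥ* Xm c = (x : R) • z) (hy : z ᵥ* Ym c = (y : R) • z) (u : F2) :
    act c u z = ((FreeGroup.lift ![x, y] u : Rˣ) : R) • z := by
  have hinv : ∀ u : F2, act c u z = ((FreeGroup.lift ![x, y] u : Rˣ) : R) • z →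
      act c u⁻¹ z = ((FreeGroup.lift ![x, y] u⁻¹ : Rˣ) : R) • z := by
    intro u hu
    have h1 := congrArg (act c u⁻¹) hu
    rw [← act_mul, mul_inv_cancel, act_one, act_smul] at h1
    calc act c u⁻¹ z = (((FreeGroup.lift ![x, y] u)⁻¹ : Rˣ) : R) •
          (((FreeGroup.lift ![x, y] u : Rˣ) : R) • act c u⁻¹ z) := by
          rw [smul_smul, ← Units.val_mul, inv_mul_cancel, Units.val_one, one_smul]
      _ = ((FreeGroup.lift ![x, y] u⁻¹ : Rˣ) : R) • z := by
          rw [← h1, map_inv]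
  induction u using FreeGroup.induction_on with
  | C1 => rw [act_one, map_one, Units.val_one, one_smul]
  | of i =>
    fin_cases i
    · change act c (FreeGroup.of 0) z = ((FreeGroup.lift ![x, y] (FreeGroup.of 0) : Rˣ) : R) • z
      rw [act, rho_0, Xc_val, hx]
      simp
    · change act c (FreeGroup.of 1) z = ((FreeGroup.lift ![x, y] (FreeGroup.of 1) : Rˣ) : R) • z
      rw [act, rho_1, Yc_val, hy]
      simp
  | inv_of i ih => exact hinv _ ih
  | mul u v hu hv => rw [act_mul, hu, act_smul, hv, smul_smul, map_mul, Units.val_mul]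

/-- dual eigenvectors -/
theorem act_col (c : Rˣ × Rˣ × Rˣ) (x y : Rˣ) (w : Fin 2 → R)
    (hx : Xm c *ᵥ w = (x : R) • w) (hy : Ym c *ᵥ w = (y : R) • w) (u : F2) :
    ∀ z : Fin 2 → R, act c u z ⬝ᵥ w = ((FreeGroup.lift ![x, y] u : Rˣ) : R) * (z ⬝ᵥ w) := by
  have hinv : ∀ u : F2,
      (∀ z : Fin 2 → R, act c u z ⬝ᵥ w = ((FreeGroup.lift ![x, y] u : Rˣ) : R) * (z ⬝ᵥ w)) →
      (∀ z : Fin 2 → R, act c u⁻¹ z ⬝ᵥ w =
        ((FreeGroup.lift ![x, y] u⁻¹ : Rˣ) : R) * (z ⬝ᵥ w)) := by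
    intro u hu z
    have h1 := hu (act c u⁻¹ z)
    rw [← act_mul, inv_mul_cancel, act_one] at h1
    rw [h1, map_inv, ← mul_assoc, ← Units.val_mul, inv_mul_cancel, Units.val_one, one_mul]
  induction u using FreeGroup.induction_on with
  | C1 => intro z; rw [act_one, map_one, Units.val_one, one_mul]
  | of i =>
    intro z
    fin_cases i
    · change act c (FreeGroup.of 0) z ⬝ᵥ w =
        ((FreeGroup.lift ![x, y] (FreeGroup.of 0) : Rˣ) : R) * (z ⬝ᵥ w)
      rw [act, rho_0, Xc_val, ← Matrix.dotProduct_mulVec, hx, dotProduct_smul]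
      simp
    · change act c (FreeGroup.of 1) z ⬝ᵥ w =
        ((FreeGroup.lift ![x, y] (FreeGroup.of 1) : Rˣ) : R) * (z ⬝ᵥ w)
      rw [act, rho_1, Yc_val, ← Matrix.dotProduct_mulVec, hy, dotProduct_smul]
      simp
  | inv_of i ih => exact hinv _ ih
  | mul u v hu hv =>
    intro z
    rw [act_mul, hv, hu, map_mul, Units.val_mul]
    ring

theorem ab_main (p : ℕ) [hp : Fact p.Prime] (hp5 : 3 < p) (u h : F2)
    (hyp : ∀ (c : (ZMod p)ˣ × (ZMod p)ˣ × (ZMod p)ˣ) (z : Fin 2 → ZMod p) (g : F2),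
      psi (tri c z) (VV u g) = psi (tri c z) h * psi (tri c z) g * (psi (tri c z) h)⁻¹)
    (hr : ∀ c : (ZMod p)ˣ × (ZMod p)ˣ × (ZMod p)ˣ, (psi c h).right = 1) :
    ((p - 1 : ℕ) : ℤ) ∣ E1 u ∧ ((p - 1 : ℕ) : ℤ) ∣ E2' u ∧ ((p - 1 : ℕ) : ℤ) ∣ K0 h ∧
      ((p - 1 : ℕ) : ℤ) ∣ K1 h ∧ ((p - 1 : ℕ) : ℤ) ∣ K3 h := by
  obtain ⟨ζ, hζ⟩ := IsCyclic.exists_generator (α := (ZMod p)ˣ)
  have hord : orderOf ζ = p - 1 := by
    rw [orderOf_eq_card_of_forall_mem_zpowers hζ, Nat.card_eq_fintype_card, ZMod.card_units]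
  have hz2 : (1 : ZMod p) - (ζ : ZMod p) ^ 2 ≠ 0 := by
    intro h0
    have h1 : ζ ^ 2 = 1 := by
      apply Units.ext
      rw [Units.val_pow_eq_pow_val, Units.val_one]
      exact (sub_eq_zero.1 h0).symm
    have h2 := Nat.le_of_dvd (by norm_num) (orderOf_dvd_of_pow_eq_one h1)
    omega
  have cancel : ∀ s t : (ZMod p)ˣ,
      (1 - (ζ : ZMod p) ^ 2) * (s : ZMod p) = (1 - (ζ : ZMod p) ^ 2) * t → s = t := by
    intro s t hst
    exact Units.ext (mul_left_cancel₀ hz2 hst)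
  have dvd : ∀ k : ℤ, ζ ^ k = 1 → ((p - 1 : ℕ) : ℤ) ∣ k := by
    intro k hk
    rw [← hord]
    exact orderOf_dvd_iff_zpow_eq_one.2 hk
  -- the four relations
  have a1 : ζ ^ E1 u = ζ ^ K0 h := by
    have h1 := rel_main (ζ, 1, 1) u h (hyp _) (hr _) ![1, 0]
    rw [act_row (ζ, 1, 1) ζ 1 ![1, 0] (by
      funext i; fin_cases i <;> simp [Xm, Matrix.vecMul, dotProduct, Fin.sum_univ_two])
      (by funext i; fin_cases i <;> simp [Ym, Matrix.vecMul, dotProduct, Fin.sum_univ_two])] at h1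
    have h2 := congrFun h1 0
    rw [lift_pair, left_one] at h2
    simp only [_root_.one_zpow, mul_one] at h2
    apply cancel
    simpa using h2
  have a2 : ζ ^ E2' u = ζ ^ K0 h := by
    have h1 := rel_main (ζ, 1, 1) u h (hyp _) (hr _) ![0, 1]
    rw [act_row (ζ, 1, 1) 1 ζ ![0, 1] (by
      funext i; fin_cases i <;> simp [Xm, Matrix.vecMul, dotProduct, Fin.sum_univ_two])
      (by funext i; fin_cases i <;> simp [Ym, Matrix.vecMul, dotProduct, Fin.sum_univ_two])] at h1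
    have h2 := congrFun h1 1
    rw [lift_pair, left_one] at h2
    simp only [_root_.one_zpow, mul_one, one_mul] at h2
    apply cancel
    simpa using h2
  have b1 : ζ ^ E2' u = ζ ^ K0 h * ζ ^ K3 h := by
    have h1 := rel_main (ζ, 1, ζ) u h (hyp _) (hr _) ![0, 1]
    rw [act_row (ζ, 1, ζ) 1 ζ ![0, 1] (by
      funext i; fin_cases i <;> simp [Xm, Matrix.vecMul, dotProduct, Fin.sum_univ_two])
      (by funext i; fin_cases i <;> simp [Ym, Matrix.vecMul, dotProduct, Fin.sum_univ_two])] at h1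
    have h2 := congrFun h1 1
    rw [lift_pair, left_one] at h2
    simp only [_root_.one_zpow, mul_one, one_mul] at h2
    apply cancel
    simpa using h2
  have b2 : (ζ ^ 2) ^ E1 u = ζ ^ K0 h * ζ ^ K3 h := by
    have h1 := rel_main (ζ, 1, ζ) u h (hyp _) (hr _) ![1, 0]
    have h2 := congrArg (fun z => z ⬝ᵥ (![1, 0] : Fin 2 → ZMod p)) h1
    simp only [smul_dotProduct] at h2
    rw [act_col (ζ, 1, ζ) (ζ ^ 2) 1 ![1, 0] (by
      funext i; fin_cases i <;> simp [Xm, Matrix.mulVec, dotProduct, Fin.sum_univ_two, pow_two])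
      (by funext i; fin_cases i <;> simp [Ym, Matrix.mulVec, dotProduct, Fin.sum_univ_two])] at h2
    rw [lift_pair, left_one] at h2
    simp only [_root_.one_zpow, mul_one, one_mul] at h2
    apply cancel
    simpa using h2
  have c1 : ζ ^ E1 u = ζ ^ K0 h * ζ ^ K1 h := by
    have h1 := rel_main (ζ, ζ, 1) u h (hyp _) (hr _) ![1, 0]
    rw [act_row (ζ, ζ, 1) ζ 1 ![1, 0] (by
      funext i; fin_cases i <;> simp [Xm, Matrix.vecMul, dotProduct, Fin.sum_univ_two])
      (by funext i; fin_cases i <;> simp [Ym, Matrix.vecMul, dotProduct, Fin.sum_univ_two])] at h1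
    have h2 := congrFun h1 0
    rw [lift_pair, left_one] at h2
    simp only [_root_.one_zpow, mul_one, one_mul] at h2
    apply cancel
    simpa using h2
  have k3 : ζ ^ K3 h = 1 := by
    rw [a2] at b1
    exact (mul_eq_left.1 b1.symm)
  have k1 : ζ ^ K1 h = 1 := by
    rw [a1] at c1
    exact (mul_eq_left.1 c1.symm)
  have e1 : ζ ^ E1 u = 1 := by
    rw [k3, mul_one, ← a1, ← zpow_natCast, ← _root_.zpow_mul, mul_comm, _root_.zpow_mul,
      zpow_natCast, pow_two] at b2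
    exact mul_eq_left.1 b2
  have k0 : ζ ^ K0 h = 1 := by rw [← a1, e1]
  have e2 : ζ ^ E2' u = 1 := by rw [a2, k0]
  exact ⟨dvd _ e1, dvd _ e2, dvd _ k0, dvd _ k1, dvd _ k3⟩

end Pool.MP_22db8c_al
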