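import Mathlib

set_option autoImplicit false

/-!
MP_22db8c_al: the affine group of a commutative ring and solvable wreath products.
-/

namespace Pool.MP_22db8c_al

/-- the map `v ↦ c v + z` of the ring `R` -/
@[ext] structure Aff (R : Type*) [CommRing R] where
  c : Rˣ
  z : R

namespace Aff

variable {R : Type*} [CommRing R]

instance : Mul (Aff R) := ⟨fun a b => ⟨a.c * b.c, a.z + a.c * b.z⟩⟩
instance : One (Aff R) := ⟨⟨1, 0⟩⟩
instance : Inv (Aff R) := ⟨fun a => ⟨a.c⁻¹, -((a.c⁻¹ : Rˣ) * a.z)⟩⟩

@[simp] theorem mul_c (a b : Aff R) : (a * b).c = a.c * b.c := rfl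
@[simp] theorem mul_z (a b : Aff R) : (a * b).z = a.z + a.c * b.z := rfl
@[simp] theorem one_c : (1 : Aff R).c = 1 := rfl
@[simp] theorem one_z : (1 : Aff R).z = 0 := rfl
@[simp] theorem inv_c (a : Aff R) : (a⁻¹).c = a.c⁻¹ := rfl
@[simp] theorem inv_z (a : Aff R) : (a⁻¹).z = -((a.c⁻¹ : Rˣ) * a.z) := rfl

instance : Group (Aff R) where
  mul_assoc a b d := by
    ext
    · simp [mul_assoc]
    · simp only [mul_c, mul_z, Units.val_mul]
      ring
  one_mul a := by ext <;> simp
  mul_one a := by ext <;> simp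
  inv_mul_cancel a := by
    ext
    · simp
    · simp only [mul_z, inv_z, inv_c, one_z]
      ring

instance [Finite R] : Finite (Aff R) :=
  Finite.of_injective (fun a : Aff R => (a.c, a.z)) (by
    rintro ⟨a, b⟩ ⟨a', b'⟩ h
    simp only [Prod.mk.injEq] at h
    exact Aff.ext h.1 h.2)

/-- the linear part -/
def lin : Aff R →* Rˣ where
  toFun := Aff.c
  map_one' := rfl
  map_mul' _ _ := rfl

/-- the translation part of a conjugate -/
theorem conj_z (b a : Aff R) : (b * a * b⁻¹).z = (1 - a.c) * b.z + b.c * a.z := by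
  simp only [mul_z, mul_c, inv_z, Units.val_mul]
  have h : ((b.c : R)) * ((b.c⁻¹ : Rˣ) : R) = 1 := by
    rw [← Units.val_mul, mul_inv_cancel, Units.val_one]
  linear_combination (-(a.c : R) * b.z) * h

theorem derived : derivedSeries (Aff R) 2 = ⊥ := by
  have h1 : derivedSeries (Aff R) 1 ≤ (lin : Aff R →* Rˣ).ker := by
    rw [derivedSeries_one]
    exact Abelianization.commutator_subset_ker _
  rw [eq_bot_iff, derivedSeries_succ]
  refine (Subgroup.commutator_mono h1 h1).trans ?_
  rw [Subgroup.commutator_le]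
  intro a ha b hb
  rw [MonoidHom.mem_ker] at ha hb
  change a.c = 1 at ha
  change b.c = 1 at hb
  rw [Subgroup.mem_bot, commutatorElement_eq_one_iff_mul_comm]
  ext
  · simp [ha, hb]
  · simp only [mul_z, ha, hb, Units.val_one]
    ring

end Aff

section wreath

open RegularWreathProduct
open scoped commutatorElement

variable {U V : Type*} [Group U] [Group V]

/-- the elements of the base group with entries in the `n`-th derived subgroup -/
def baseP (U V : Type*) [Group U] [Group V] (n : ℕ) : Subgroup (U ≀ᵣ V) where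
  carrier := {a | a.right = 1 ∧ ∀ v, a.left v ∈ derivedSeries U n}
  mul_mem' := by
    rintro a b ⟨ha, ha'⟩ ⟨hb, hb'⟩
    refine ⟨by rw [mul_right, ha, hb, one_mul], fun v => ?_⟩
    rw [mul_left]
    exact mul_mem (ha' _) (hb' _)
  one_mem' := ⟨rfl, fun v => one_mem _⟩
  inv_mem' := by
    rintro a ⟨ha, ha'⟩
    refine ⟨by rw [inv_right, ha, inv_one], fun v => ?_⟩
    rw [inv_left]
    exact inv_mem (ha' _)

theorem wr_derived (hV : ∀ x y : V, x * y = y * x) (n : ℕ) :
    derivedSeries (U ≀ᵣ V) (n + 1) ≤ baseP U V n := by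
  induction n with
  | zero =>
    rw [zero_add, derivedSeries_one, commutator_def, Subgroup.commutator_le]
    intro a _ b _
    refine ⟨?_, fun v => by rw [derivedSeries_zero]; exact Subgroup.mem_top _⟩
    rw [commutatorElement_def, mul_right, mul_right, mul_right, inv_right, inv_right,
      hV a.right b.right, mul_inv_cancel_right, mul_inv_cancel]
  | succ n ih =>
    rw [derivedSeries_succ]
    refine (Subgroup.commutator_mono ih ih).trans ?_
    rw [Subgroup.commutator_le]
    rintro a ⟨ha, ha'⟩ b ⟨hb, hb'⟩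
    refine ⟨by rw [commutatorElement_def, mul_right, mul_right, mul_right, inv_right, inv_right,
      ha, hb]; simp, fun v => ?_⟩
    have h1 : (⁅a, b⁆ : U ≀ᵣ V).left v = ⁅a.left v, b.left v⁆ := by
      rw [commutatorElement_def, commutatorElement_def]
      simp [ha, hb, mul_assoc]
    rw [h1, derivedSeries_succ]
    exact Subgroup.commutator_mem_commutator (ha' v) (hb' v)

theorem wr_derived_three (hV : ∀ x y : V, x * y = y * x) (hU : derivedSeries U 2 = ⊥) :
    derivedSeries (U ≀ᵣ V) 3 = ⊥ := by
  rw [eq_bot_iff]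
  refine (wr_derived hV 2).trans ?_
  rintro a ⟨ha, ha'⟩
  rw [Subgroup.mem_bot]
  ext v
  · have := ha' v
    rw [hU, Subgroup.mem_bot] at this
    exact this
  · rw [ha]
    rfl

end wreath

end Pool.MP_22db8c_al
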