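import Mathlib

set_option autoImplicit false

/-!
MP_22db8c_al: two extensions of a finite commutative ring.
-/

namespace Pool.MP_22db8c_al

open Polynomial

universe u

/-- adjoin a root of `x² - t x + d` -/
theorem exists_root (R : Type u) [CommRing R] [Finite R] (t d : R) :
    ∃ (R' : Type u) (_ : CommRing R') (_ : Finite R') (f : R →+* R'), Function.Injective f ∧
      ∃ x : R', x * (f t - x) = f d := by
  refine ⟨QuadraticAlgebra R (-d) t, inferInstance,
    Finite.of_equiv (R × R) (QuadraticAlgebra.equivProd (-d) t).symm,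
    algebraMap R (QuadraticAlgebra R (-d) t), QuadraticAlgebra.algebraMap_injective, ⟨0, 1⟩, ?_⟩
  apply QuadraticAlgebra.ext
  · simp
  · simp

/-- adjoin an element `t` near which `G(t)` is almost a non-zero-divisor -/
theorem exists_ext (R : Type u) [CommRing R] [Finite R] (G : R[X]) (hG : G.Monic) :
    ∃ (S : Type u) (_ : CommRing S) (_ : Finite S) (i : R →+* S) (t : S) (π : S →+* R),
      (∀ r, π (i r) = r) ∧ π t = 0 ∧ ∀ s : S, G.eval₂ i t * s = 0 → π s = 0 := by
  have hm : (X * G).Monic := monic_X.mul hG
  have h1 : Module.Finite R (AdjoinRoot (X * G)) := hm.finite_adjoinRoot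
  refine ⟨AdjoinRoot (X * G), inferInstance, Module.finite_of_finite R, AdjoinRoot.of _,
    AdjoinRoot.root _, AdjoinRoot.lift (RingHom.id R) 0 (by simp), fun r => by simp, by simp, ?_⟩
  intro s
  induction s using AdjoinRoot.induction_on with
  | ih P =>
    intro h
    have h2 : G.eval₂ (AdjoinRoot.of (X * G)) (AdjoinRoot.root (X * G)) =
        AdjoinRoot.mk (X * G) G := AdjoinRoot.aeval_eq G
    rw [h2, ← map_mul, AdjoinRoot.mk_eq_zero] at h
    obtain ⟨Q, hQ⟩ := h
    have h3 : P = X * Q := by
      apply hG.isRegular.left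
      change G * P = G * (X * Q)
      rw [hQ]
      ring
    rw [AdjoinRoot.lift_mk, h3]
    simp

end Pool.MP_22db8c_al
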