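import Mathlib

set_option autoImplicit false

/-!
MP_22db8c_al: words in two invertible `2 × 2` matrices `X, Y` are combinations of `1, X, Y, XY` whose
coefficients are universal polynomials in the invariants of the pair.
-/

namespace Pool.MP_22db8c_al

open Matrix

universe u

section spec

variable {B : Type*} [CommRing B]

/-- the combination of `1, X, Y, XY` with coefficients `v` -/
def ev (X Y : Matrix (Fin 2) (Fin 2) B) (v : Fin 4 → B) : Matrix (Fin 2) (Fin 2) B :=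
  v 0 • 1 + v 1 • X + v 2 • Y + v 3 • (X * Y)

/-- left multiplication by `X` in the coordinates -/
def LX (x : Fin 7 → B) (v : Fin 4 → B) : Fin 4 → B :=
  ![-(x 1 * v 1), v 0 + x 0 * v 1, -(x 1 * v 3), v 2 + x 0 * v 3]

/-- left multiplication by `Y` in the coordinates -/
def LY (x : Fin 7 → B) (v : Fin 4 → B) : Fin 4 → B :=
  ![(x 4 - x 0 * x 2) * v 1 - x 3 * v 2 - x 0 * x 3 * v 3, x 2 * v 1 + x 3 * v 3,
    v 0 + x 0 * v 1 + x 2 * v 2 + x 4 * v 3, -v 1]

def LXi (x : Fin 7 → B) (v : Fin 4 → B) : Fin 4 → B :=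
  ![x 5 * (x 0 * v 0 + x 1 * v 1), -(x 5 * v 0), x 5 * (x 0 * v 2 + x 1 * v 3), -(x 5 * v 2)]

def LYi (x : Fin 7 → B) (v : Fin 4 → B) : Fin 4 → B :=
  ![x 6 * (x 2 * v 0 - (x 4 - x 0 * x 2) * v 1 + x 3 * v 2 + x 0 * x 3 * v 3), -(x 6 * x 3 * v 3),
    -(x 6 * (v 0 + x 0 * v 1 + x 4 * v 3)), x 6 * (x 2 * v 3 + v 1)]

/-- the conditions on the seven invariants of a pair of matrices -/
structure IsInv (X Y : Matrix (Fin 2) (Fin 2) B) (x : Fin 7 → B) : Prop where
  h0 : x 0 = X 0 0 + X 1 1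
  h1 : x 1 = X 0 0 * X 1 1 - X 0 1 * X 1 0
  h2 : x 2 = Y 0 0 + Y 1 1
  h3 : x 3 = Y 0 0 * Y 1 1 - Y 0 1 * Y 1 0
  h4 : x 4 = X 0 0 * Y 0 0 + X 0 1 * Y 1 0 + (X 1 0 * Y 0 1 + X 1 1 * Y 1 1)
  h5 : x 5 * x 1 = 1
  h6 : x 6 * x 3 = 1

theorem ev_00 (X Y : Matrix (Fin 2) (Fin 2) B) (v : Fin 4 → B) :
    ev X Y v 0 0 = v 0 + v 1 * X 0 0 + v 2 * Y 0 0 + v 3 * (X 0 0 * Y 0 0 + X 0 1 * Y 1 0) := by
  simp [ev, Matrix.mul_apply, Fin.sum_univ_two]

theorem ev_01 (X Y : Matrix (Fin 2) (Fin 2) B) (v : Fin 4 → B) :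
    ev X Y v 0 1 = v 1 * X 0 1 + v 2 * Y 0 1 + v 3 * (X 0 0 * Y 0 1 + X 0 1 * Y 1 1) := by
  simp [ev, Matrix.mul_apply, Fin.sum_univ_two]

theorem ev_10 (X Y : Matrix (Fin 2) (Fin 2) B) (v : Fin 4 → B) :
    ev X Y v 1 0 = v 1 * X 1 0 + v 2 * Y 1 0 + v 3 * (X 1 0 * Y 0 0 + X 1 1 * Y 1 0) := by
  simp [ev, Matrix.mul_apply, Fin.sum_univ_two]

theorem ev_11 (X Y : Matrix (Fin 2) (Fin 2) B) (v : Fin 4 → B) :
    ev X Y v 1 1 = v 0 + v 1 * X 1 1 + v 2 * Y 1 1 + v 3 * (X 1 0 * Y 0 1 + X 1 1 * Y 1 1) := by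
  simp [ev, Matrix.mul_apply, Fin.sum_univ_two]

theorem mat_ext {M N : Matrix (Fin 2) (Fin 2) B} (h00 : M 0 0 = N 0 0) (h01 : M 0 1 = N 0 1)
    (h10 : M 1 0 = N 1 0) (h11 : M 1 1 = N 1 1) : M = N := by
  ext i j
  fin_cases i <;> fin_cases j <;> assumption

variable {X Y : Matrix (Fin 2) (Fin 2) B} {x : Fin 7 → B}

theorem LX_spec (h : IsInv X Y x) (v : Fin 4 → B) : X * ev X Y v = ev X Y (LX x v) := by
  apply mat_ext <;>
    simp only [Matrix.mul_apply, Fin.sum_univ_two, ev_00, ev_01, ev_10, ev_11, LX, h.h0, h.h1,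
      Matrix.cons_val_zero, Matrix.cons_val_one, Matrix.cons_val] <;> ring

theorem LY_spec (h : IsInv X Y x) (v : Fin 4 → B) : Y * ev X Y v = ev X Y (LY x v) := by
  apply mat_ext <;>
    simp only [Matrix.mul_apply, Fin.sum_univ_two, ev_00, ev_01, ev_10, ev_11, LY, h.h0, h.h2,
      h.h3, h.h4, Matrix.cons_val_zero, Matrix.cons_val_one, Matrix.cons_val] <;> ring

theorem LX_LXi (h : IsInv X Y x) (v : Fin 4 → B) : LX x (LXi x v) = v := by
  have h5 := h.h5
  funext i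
  fin_cases i
  · change -(x 1 * -(x 5 * v 0)) = v 0
    linear_combination v 0 * h5
  · change x 5 * (x 0 * v 0 + x 1 * v 1) + x 0 * -(x 5 * v 0) = v 1
    linear_combination v 1 * h5
  · change -(x 1 * -(x 5 * v 2)) = v 2
    linear_combination v 2 * h5
  · change x 5 * (x 0 * v 2 + x 1 * v 3) + x 0 * -(x 5 * v 2) = v 3
    linear_combination v 3 * h5

theorem LY_LYi (h : IsInv X Y x) (v : Fin 4 → B) : LY x (LYi x v) = v := by
  have h6 := h.h6
  funext i
  fin_cases i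
  · change (x 4 - x 0 * x 2) * -(x 6 * x 3 * v 3) - x 3 * -(x 6 * (v 0 + x 0 * v 1 + x 4 * v 3)) -
      x 0 * x 3 * (x 6 * (x 2 * v 3 + v 1)) = v 0
    linear_combination v 0 * h6
  · change x 2 * -(x 6 * x 3 * v 3) + x 3 * (x 6 * (x 2 * v 3 + v 1)) = v 1
    linear_combination v 1 * h6
  · change x 6 * (x 2 * v 0 - (x 4 - x 0 * x 2) * v 1 + x 3 * v 2 + x 0 * x 3 * v 3) +
      x 0 * -(x 6 * x 3 * v 3) + x 2 * -(x 6 * (v 0 + x 0 * v 1 + x 4 * v 3)) +
      x 4 * (x 6 * (x 2 * v 3 + v 1)) = v 2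
    linear_combination v 2 * h6
  · change -(-(x 6 * x 3 * v 3)) = v 3
    linear_combination v 3 * h6

end spec

open MvPolynomial in
/-- words are universal combinations of `1, X, Y, XY` -/
theorem fricke (w : FreeGroup (Fin 2)) : ∃ P : Fin 4 → MvPolynomial (Fin 7) ℤ,
    ∀ (B : Type u) [CommRing B] (X Y : GL (Fin 2) B) (x : Fin 7 → B),
      IsInv (X : Matrix (Fin 2) (Fin 2) B) Y x →
      ((FreeGroup.lift ![X, Y] w : GL (Fin 2) B) : Matrix (Fin 2) (Fin 2) B) =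
        ev (X : Matrix (Fin 2) (Fin 2) B) Y (fun i => aeval x (P i)) := by
  have main : ∀ w : FreeGroup (Fin 2), ∀ P : Fin 4 → MvPolynomial (Fin 7) ℤ,
      ∃ Q : Fin 4 → MvPolynomial (Fin 7) ℤ,
      ∀ (B : Type u) [CommRing B] (X Y : GL (Fin 2) B) (x : Fin 7 → B),
      IsInv (X : Matrix (Fin 2) (Fin 2) B) Y x →
      ((FreeGroup.lift ![X, Y] w : GL (Fin 2) B) : Matrix (Fin 2) (Fin 2) B) *
        ev (X : Matrix (Fin 2) (Fin 2) B) Y (fun i => aeval x (P i)) =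
        ev (X : Matrix (Fin 2) (Fin 2) B) Y (fun i => aeval x (Q i)) := by
    intro w
    induction w using FreeGroup.induction_on with
    | C1 =>
      intro P
      refine ⟨P, fun B _ X Y x hx => ?_⟩
      rw [map_one, Units.val_one, one_mul]
    | of i =>
      intro P
      fin_cases i
      · refine ⟨LX MvPolynomial.X P, fun B _ X Y x hx => ?_⟩
        change ((FreeGroup.lift ![X, Y] (FreeGroup.of 0) : GL (Fin 2) B) :
          Matrix (Fin 2) (Fin 2) B) * _ = _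
        rw [FreeGroup.lift_apply_of, Matrix.cons_val_zero, LX_spec hx]
        congr 1
        funext i
        fin_cases i <;> simp [LX]
      · refine ⟨LY MvPolynomial.X P, fun B _ X Y x hx => ?_⟩
        change ((FreeGroup.lift ![X, Y] (FreeGroup.of 1) : GL (Fin 2) B) :
          Matrix (Fin 2) (Fin 2) B) * _ = _
        rw [FreeGroup.lift_apply_of, Matrix.cons_val_one, Matrix.cons_val_fin_one, LY_spec hx]
        congr 1
        funext i
        fin_cases i <;> simp [LY]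
    | inv_of i ih =>
      intro P
      fin_cases i
      · refine ⟨LXi MvPolynomial.X P, fun B _ X Y x hx => ?_⟩
        change ((FreeGroup.lift ![X, Y] (FreeGroup.of 0)⁻¹ : GL (Fin 2) B) :
          Matrix (Fin 2) (Fin 2) B) * _ = _
        rw [map_inv, FreeGroup.lift_apply_of, Matrix.cons_val_zero]
        have h1 : (fun i => aeval x (LXi MvPolynomial.X P i)) = LXi x (fun i => aeval x (P i)) := by
          funext i
          fin_cases i <;> simp [LXi]
        rw [h1]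
        have h2 := LX_spec hx (LXi x (fun i => aeval x (P i)))
        rw [LX_LXi hx] at h2
        rw [← h2, ← mul_assoc, ← Units.val_mul, inv_mul_cancel, Units.val_one, one_mul]
      · refine ⟨LYi MvPolynomial.X P, fun B _ X Y x hx => ?_⟩
        change ((FreeGroup.lift ![X, Y] (FreeGroup.of 1)⁻¹ : GL (Fin 2) B) :
          Matrix (Fin 2) (Fin 2) B) * _ = _
        rw [map_inv, FreeGroup.lift_apply_of, Matrix.cons_val_one, Matrix.cons_val_fin_one]
        have h1 : (fun i => aeval x (LYi MvPolynomial.X P i)) = LYi x (fun i => aeval x (P i)) := by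
          funext i
          fin_cases i <;> simp [LYi]
        rw [h1]
        have h2 := LY_spec hx (LYi x (fun i => aeval x (P i)))
        rw [LY_LYi hx] at h2
        rw [← h2, ← mul_assoc, ← Units.val_mul, inv_mul_cancel, Units.val_one, one_mul]
    | mul u v hu hv =>
      intro P
      obtain ⟨Q, hQ⟩ := hv P
      obtain ⟨Q', hQ'⟩ := hu Q
      refine ⟨Q', fun B _ X Y x hx => ?_⟩
      rw [map_mul, Units.val_mul, mul_assoc, hQ B X Y x hx, hQ' B X Y x hx]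
  obtain ⟨Q, hQ⟩ := main w ![1, 0, 0, 0]
  refine ⟨Q, fun B _ X Y x hx => ?_⟩
  rw [← hQ B X Y x hx]
  have h1 : ev (X : Matrix (Fin 2) (Fin 2) B) Y
      (fun i => aeval x ((![1, 0, 0, 0] : Fin 4 → MvPolynomial (Fin 7) ℤ) i)) = 1 := by
    simp [ev]
  rw [h1, mul_one]

end Pool.MP_22db8c_al
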