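import Mathlib
import Pool.Agent.H.MP_59b15d_al.h76m.Hf

set_option autoImplicit false

/-!
MP_22db8c_al: the homomorphisms `psi q : F_2 → U ≀ V_4` attached to three elements of a group `U`.
-/

namespace Pool.MP_22db8c_al

open RegularWreathProduct
open FreeGroup (of)
open Pool.MP_59b15d_al.H76 (F2 XX YY VV VV_0 VV_1)

/-- the Klein four group -/
abbrev V : Type := Multiplicative (ZMod 2) × Multiplicative (ZMod 2)

def e1 : V := (Multiplicative.ofAdd 1, 1)
def e2 : V := (1, Multiplicative.ofAdd 1)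
def e3 : V := (Multiplicative.ofAdd 1, Multiplicative.ofAdd 1)

theorem V_cases (v : V) : v = 1 ∨ v = e1 ∨ v = e2 ∨ v = e3 := by
  revert v; decide

theorem V_comm (x y : V) : x * y = y * x := mul_comm x y

section fn

variable {U : Type*}

/-- a function on `V` given by its four values -/
def fn (u0 u1 u2 u3 : U) (v : V) : U :=
  if v = 1 then u0 else if v = e1 then u1 else if v = e2 then u2 else u3

@[simp] theorem fn0 (u0 u1 u2 u3 : U) : fn u0 u1 u2 u3 1 = u0 := by simp [fn]
@[simp] theorem fn1 (u0 u1 u2 u3 : U) : fn u0 u1 u2 u3 e1 = u1 := by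
  rw [fn, if_neg (by decide), if_pos rfl]
@[simp] theorem fn2 (u0 u1 u2 u3 : U) : fn u0 u1 u2 u3 e2 = u2 := by
  rw [fn, if_neg (by decide), if_neg (by decide), if_pos rfl]
@[simp] theorem fn3 (u0 u1 u2 u3 : U) : fn u0 u1 u2 u3 e3 = u3 := by
  rw [fn, if_neg (by decide), if_neg (by decide), if_neg (by decide)]

end fn

theorem V11 : e1 * e1 = 1 := by decide
theorem V12 : e1 * e2 = e3 := by decide
theorem V13 : e1 * e3 = e2 := by decide
theorem V21 : e2 * e1 = e3 := by decide
theorem V22 : e2 * e2 = 1 := by decide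
theorem V23 : e2 * e3 = e1 := by decide
theorem V31 : e3 * e1 = e2 := by decide
theorem V32 : e3 * e2 = e1 := by decide
theorem V33 : e3 * e3 = 1 := by decide
theorem Vi1 : e1⁻¹ = e1 := by decide
theorem Vi2 : e2⁻¹ = e2 := by decide
theorem Vi3 : e3⁻¹ = e3 := by decide

section

variable {U : Type*} [Group U]

/-- image of the first generator -/
def px (q : U × U × U) : U ≀ᵣ V := ⟨fn q.1 1 (q.2.2⁻¹ * q.1⁻¹) q.2.2, e3⟩

/-- image of the second generator -/
def py (q : U × U × U) : U ≀ᵣ V := ⟨fn q.2.1 q.1 1 (q.1⁻¹ * q.2.1⁻¹), e1⟩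

/-- the homomorphism attached to `q` -/
def psi (q : U × U × U) : F2 →* U ≀ᵣ V := FreeGroup.lift ![px q, py q]

theorem psi_0 (q : U × U × U) : psi q (of 0) = px q := by simp [psi]
theorem psi_1 (q : U × U × U) : psi q (of 1) = py q := by simp [psi]

/-- the first twist -/
def qA (q : U × U × U) : U × U × U :=
  (q.1, q.1 * q.2.2 * q.2.1 * (q.1 * q.2.2)⁻¹, q.2.2)

/-- the second twist -/
def qB (q : U × U × U) : U × U × U :=
  (q.1, q.2.1, q.2.1 * q.1 * q.2.2 * (q.2.1 * q.1)⁻¹)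

def dA (q : U × U × U) : U ≀ᵣ V := ⟨fn 1 (q.2.2⁻¹ * q.1⁻¹) (q.2.2⁻¹ * q.1⁻¹) 1, 1⟩
def dB (q : U × U × U) : U ≀ᵣ V := ⟨fn 1 1 (q.1⁻¹ * q.2.1⁻¹) (q.1⁻¹ * q.2.1⁻¹), 1⟩

theorem wr_ext {a b : U ≀ᵣ V} (h : a.right = b.right) (h0 : a.left 1 = b.left 1)
    (h1 : a.left e1 = b.left e1) (h2 : a.left e2 = b.left e2) (h3 : a.left e3 = b.left e3) :
    a = b := by
  apply RegularWreathProduct.ext
  · funext v
    rcases V_cases v with rfl | rfl | rfl | rfl <;> assumption
  · exact h

theorem hom_ext2 {G : Type*} [Group G] {f g : F2 →* G} (h0 : f (of 0) = g (of 0))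
    (h1 : f (of 1) = g (of 1)) (z : F2) : f z = g z := by
  have : f = g := by
    apply FreeGroup.ext_hom
    intro i
    fin_cases i
    · exact h0
    · exact h1
  rw [this]

theorem psi_XX (q : U × U × U) (z : F2) : psi q (XX z) = dA q * psi (qA q) z * (dA q)⁻¹ := by
  refine hom_ext2 (f := (psi q).comp XX.toMonoidHom)
    (g := (MulAut.conj (dA q)).toMonoidHom.comp (psi (qA q))) ?_ ?_ z
  · change psi q (XX (of 0)) = dA q * psi (qA q) (of 0) * (dA q)⁻¹
    rw [Pool.MP_59b15d_al.H76.XX_a, psi_0, psi_0]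
    apply wr_ext <;> simp [px, qA, dA, V33, V13, V23, V31, V32, Vi3, mul_assoc]
  · change psi q (XX (of 1)) = dA q * psi (qA q) (of 1) * (dA q)⁻¹
    rw [Pool.MP_59b15d_al.H76.XX_b, map_mul, map_mul, psi_0, psi_1, psi_1]
    apply wr_ext <;> simp [px, py, qA, dA, V33, V11, V12, V13, V21, V22, V23, V31, V32, Vi1, Vi2,
      Vi3, mul_assoc]

theorem psi_YY (q : U × U × U) (z : F2) : psi q (YY z) = dB q * psi (qB q) z * (dB q)⁻¹ := by
  refine hom_ext2 (f := (psi q).comp YY.toMonoidHom)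
    (g := (MulAut.conj (dB q)).toMonoidHom.comp (psi (qB q))) ?_ ?_ z
  · change psi q (YY (of 0)) = dB q * psi (qB q) (of 0) * (dB q)⁻¹
    rw [Pool.MP_59b15d_al.H76.YY_a, map_mul, map_mul, map_inv, psi_0, psi_0, psi_1]
    apply wr_ext <;> simp [px, py, qB, dB, V33, V11, V12, V13, V21, V22, V23, V31, V32, Vi1, Vi2,
      Vi3, mul_assoc]
  · change psi q (YY (of 1)) = dB q * psi (qB q) (of 1) * (dB q)⁻¹
    rw [Pool.MP_59b15d_al.H76.YY_b, psi_1, psi_1]
    apply wr_ext <;> simp [py, qB, dB, V11, V12, V13, V21, V31, Vi1, mul_assoc]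

/-- the square of the loop around the fixed puncture -/
def om : F2 := of 0 * (of 1)⁻¹ * (of 0)⁻¹ * of 1

theorem psi_om (q : U × U × U) : (psi q om).right = 1 ∧ (psi q om).left 1 = q.1 * q.1 ∧
    (psi q om).left e1 = q.2.1 * q.2.1 ∧
    (psi q om).left e2 = (q.2.2⁻¹ * q.1⁻¹ * q.2.1⁻¹) * (q.2.2⁻¹ * q.1⁻¹ * q.2.1⁻¹) ∧
    (psi q om).left e3 = q.2.2 * q.2.2 := by
  rw [om, map_mul, map_mul, map_mul, map_inv, map_inv, psi_0, psi_1]
  refine ⟨?_, ?_, ?_, ?_, ?_⟩
  · simp [px, py]
  all_goals simp [px, py, V33, V11, V12, V13, V21, V22, V23, V31, V32, Vi1, Vi2, Vi3, mul_assoc]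

theorem psi_x2 (q : U × U × U) : (psi q (of 0 * of 0)).right = 1 ∧
    (psi q (of 0 * of 0)).left 1 = q.1 * q.2.2 := by
  rw [map_mul, psi_0]
  refine ⟨?_, ?_⟩
  · simp [px]; decide
  · simp [px, Vi3]

theorem psi_y2 (q : U × U × U) : (psi q (of 1 * of 1)).right = 1 ∧
    (psi q (of 1 * of 1)).left 1 = q.2.1 * q.1 := by
  rw [map_mul, psi_1]
  refine ⟨?_, ?_⟩
  · simp [py]; decide
  · simp [py, Vi1]

theorem VV_om (u : F2) : VV u om = om := by
  induction u using FreeGroup.induction_on with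
  | C1 => rw [map_one, MulAut.one_apply]
  | of i =>
    fin_cases i
    · change VV (of 0) om = om
      rw [VV_0, om, map_mul, map_mul, map_mul, map_inv, map_inv, Pool.MP_59b15d_al.H76.XX_a,
        Pool.MP_59b15d_al.H76.XX_b]
      group
    · change VV (of 1) om = om
      rw [VV_1, om, map_mul, map_mul, map_mul, map_inv, map_inv, Pool.MP_59b15d_al.H76.YY_a,
        Pool.MP_59b15d_al.H76.YY_b]
      group
  | inv_of i ih =>
    rw [map_inv]
    have h : (VV (of i))⁻¹ (VV (of i) om) = om := MulAut.inv_apply_self _ _ _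
    rw [ih] at h
    exact h
  | mul a b ha hb => rw [map_mul, MulAut.mul_apply, hb, ha]

end

section functor

variable {U W : Type*} [Group U] [Group W]

/-- functoriality of the wreath product -/
def wmap (φ : U →* W) : U ≀ᵣ V →* W ≀ᵣ V where
  toFun a := ⟨fun v => φ (a.left v), a.right⟩
  map_one' := by
    apply RegularWreathProduct.ext
    · funext v
      exact map_one φ
    · rfl
  map_mul' a b := by
    apply RegularWreathProduct.ext
    · funext v
      exact map_mul φ _ _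
    · rfl

theorem fn_map (φ : U →* W) (u0 u1 u2 u3 : U) (v : V) :
    φ (fn u0 u1 u2 u3 v) = fn (φ u0) (φ u1) (φ u2) (φ u3) v := by
  rcases V_cases v with rfl | rfl | rfl | rfl <;> simp

theorem psi_map (φ : U →* W) (q : U × U × U) (z : F2) :
    wmap φ (psi q z) = psi (φ q.1, φ q.2.1, φ q.2.2) z := by
  refine hom_ext2 (f := (wmap φ).comp (psi q)) (g := psi (φ q.1, φ q.2.1, φ q.2.2)) ?_ ?_ z
  · rw [MonoidHom.comp_apply, psi_0, psi_0]
    apply RegularWreathProduct.ext
    · funext v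
      change φ (fn _ _ _ _ v) = _
      rw [fn_map]
      simp [px]
    · rfl
  · rw [MonoidHom.comp_apply, psi_1, psi_1]
    apply RegularWreathProduct.ext
    · funext v
      change φ (fn _ _ _ _ v) = _
      rw [fn_map]
      simp [py]
    · rfl

/-- the right component does not depend on `q` -/
theorem psi_right (q : U × U × U) (q' : W × W × W) (z : F2) :
    (psi q z).right = (psi q' z).right := by
  refine hom_ext2 (f := rightHom.comp (psi q)) (g := rightHom.comp (psi q')) ?_ ?_ z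
  · rw [MonoidHom.comp_apply, MonoidHom.comp_apply, psi_0, psi_0]; rfl
  · rw [MonoidHom.comp_apply, MonoidHom.comp_apply, psi_1, psi_1]; rfl

end functor

end Pool.MP_22db8c_al
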