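import Pool.Agent.H.MP_22db8c_al.Aff
import Pool.Agent.H.MP_22db8c_al.Wr

set_option autoImplicit false

/-!
MP_22db8c_al: the action of the free group of twists on the affine homomorphisms.
-/

namespace Pool.MP_22db8c_al

open RegularWreathProduct Matrix
open FreeGroup (of)
open Pool.MP_59b15d_al.H76 (F2 XX YY VV VV_0 VV_1)

variable {R : Type*} [CommRing R]

/-- the triple of affine maps with linear parts `c` and translation parts `(0, z 0, z 1)` -/
def tri (c : Rˣ × Rˣ × Rˣ) (z : Fin 2 → R) : Aff R × Aff R × Aff R :=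
  (⟨c.1, 0⟩, ⟨c.2.1, z 0⟩, ⟨c.2.2, z 1⟩)

/-- the matrix of the first twist -/
def Xm (c : Rˣ × Rˣ × Rˣ) : Matrix (Fin 2) (Fin 2) R :=
  !![(c.1 : R) * c.2.2, 0; (1 - c.2.1) * c.1, 1]

/-- the matrix of the second twist -/
def Ym (c : Rˣ × Rˣ × Rˣ) : Matrix (Fin 2) (Fin 2) R :=
  !![1, 1 - (c.2.2 : R); 0, c.1 * c.2.1]

theorem Xm_det (c : Rˣ × Rˣ × Rˣ) : (Xm c).det = c.1 * c.2.2 := by
  rw [Xm, Matrix.det_fin_two_of]
  ring

theorem Ym_det (c : Rˣ × Rˣ × Rˣ) : (Ym c).det = c.1 * c.2.1 := by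
  rw [Ym, Matrix.det_fin_two_of]
  ring

noncomputable def Xc (c : Rˣ × Rˣ × Rˣ) : GL (Fin 2) R :=
  Matrix.GeneralLinearGroup.mk'' (Xm c) (by
    rw [Xm_det, ← Units.val_mul]
    exact Units.isUnit _)

noncomputable def Yc (c : Rˣ × Rˣ × Rˣ) : GL (Fin 2) R :=
  Matrix.GeneralLinearGroup.mk'' (Ym c) (by
    rw [Ym_det, ← Units.val_mul]
    exact Units.isUnit _)

theorem Xc_val (c : Rˣ × Rˣ × Rˣ) : ((Xc c : GL (Fin 2) R) : Matrix (Fin 2) (Fin 2) R) = Xm c := rfl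
theorem Yc_val (c : Rˣ × Rˣ × Rˣ) : ((Yc c : GL (Fin 2) R) : Matrix (Fin 2) (Fin 2) R) = Ym c := rfl

/-- the representation of the free group of twists -/
noncomputable def rho (c : Rˣ × Rˣ × Rˣ) : F2 →* GL (Fin 2) R := FreeGroup.lift ![Xc c, Yc c]

theorem rho_0 (c : Rˣ × Rˣ × Rˣ) : rho c (of 0) = Xc c := by simp [rho]
theorem rho_1 (c : Rˣ × Rˣ × Rˣ) : rho c (of 1) = Yc c := by simp [rho]

/-- the action on row vectors -/
noncomputable def act (c : Rˣ × Rˣ × Rˣ) (u : F2) (z : Fin 2 → R) : Fin 2 → R :=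
  z ᵥ* ((rho c u : GL (Fin 2) R) : Matrix (Fin 2) (Fin 2) R)

theorem act_one (c : Rˣ × Rˣ × Rˣ) (z : Fin 2 → R) : act c 1 z = z := by
  rw [act, map_one, Units.val_one, Matrix.vecMul_one]

theorem act_mul (c : Rˣ × Rˣ × Rˣ) (u v : F2) (z : Fin 2 → R) :
    act c (u * v) z = act c v (act c u z) := by
  rw [act, act, act, map_mul, Units.val_mul, Matrix.vecMul_vecMul]

theorem qA_tri (c : Rˣ × Rˣ × Rˣ) (z : Fin 2 → R) : qA (tri c z) = tri c (act c (of 0) z) := by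
  rw [act, rho_0, Xc_val]
  refine Prod.ext rfl (Prod.ext ?_ ?_)
  · change _ * (⟨c.2.1, z 0⟩ : Aff R) * _ = _
    apply Aff.ext
    · simp only [qA, tri, Aff.mul_c, Aff.inv_c]
      rw [mul_comm (c.1 * c.2.2), mul_inv_cancel_right]
    · change (((⟨c.1, 0⟩ : Aff R) * ⟨c.2.2, z 1⟩) * (⟨c.2.1, z 0⟩ : Aff R) *
        ((⟨c.1, 0⟩ : Aff R) * ⟨c.2.2, z 1⟩)⁻¹).z = (z ᵥ* Xm c) 0
      rw [Aff.conj_z]
      simp only [Aff.mul_c, Aff.mul_z, Units.val_mul, Xm, Matrix.vecMul, dotProduct,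
        Fin.sum_univ_two, Matrix.of_apply, Matrix.cons_val', Matrix.cons_val_zero,
        Matrix.cons_val_one, Matrix.cons_val_fin_one]
      ring
  · apply Aff.ext
    · rfl
    · change z 1 = (z ᵥ* Xm c) 1
      simp [Xm, Matrix.vecMul, dotProduct, Fin.sum_univ_two]

theorem qB_tri (c : Rˣ × Rˣ × Rˣ) (z : Fin 2 → R) : qB (tri c z) = tri c (act c (of 1) z) := by
  rw [act, rho_1, Yc_val]
  refine Prod.ext rfl (Prod.ext ?_ ?_)
  · apply Aff.ext
    · rfl
    · change z 0 = (z ᵥ* Ym c) 0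
      simp [Ym, Matrix.vecMul, dotProduct, Fin.sum_univ_two]
  · apply Aff.ext
    · simp only [qB, tri, Aff.mul_c, Aff.inv_c]
      rw [mul_comm (c.2.1 * c.1), mul_inv_cancel_right]
    · change (((⟨c.2.1, z 0⟩ : Aff R) * ⟨c.1, 0⟩) * (⟨c.2.2, z 1⟩ : Aff R) *
        ((⟨c.2.1, z 0⟩ : Aff R) * ⟨c.1, 0⟩)⁻¹).z = (z ᵥ* Ym c) 1
      rw [Aff.conj_z]
      simp only [Aff.mul_c, Aff.mul_z, Units.val_mul, Ym, Matrix.vecMul, dotProduct,
        Fin.sum_univ_two, Matrix.of_apply, Matrix.cons_val', Matrix.cons_val_zero,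
        Matrix.cons_val_one, Matrix.cons_val_fin_one]
      ring

/-- the twists act on the affine homomorphisms through `rho`, up to conjugation by an element of the
base group with trivial first entry -/
theorem rel (c : Rˣ × Rˣ × Rˣ) (u : F2) : ∀ z : Fin 2 → R, ∃ d : Aff R ≀ᵣ V, d.right = 1 ∧
    d.left 1 = 1 ∧ ∀ g : F2, psi (tri c z) (VV u g) = d * psi (tri c (act c u z)) g * d⁻¹ := by
  have hinv : ∀ u : F2, (∀ z : Fin 2 → R, ∃ d : Aff R ≀ᵣ V, d.right = 1 ∧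
      d.left 1 = 1 ∧ ∀ g : F2, psi (tri c z) (VV u g) = d * psi (tri c (act c u z)) g * d⁻¹) →
      (∀ z : Fin 2 → R, ∃ d : Aff R ≀ᵣ V, d.right = 1 ∧
      d.left 1 = 1 ∧ ∀ g : F2, psi (tri c z) (VV u⁻¹ g) =
        d * psi (tri c (act c u⁻¹ z)) g * d⁻¹) := by
    intro u hu z
    obtain ⟨d, hd, hd1, hd2⟩ := hu (act c u⁻¹ z)
    refine ⟨d⁻¹, ?_, ?_, fun g => ?_⟩
    · rw [inv_right, hd, inv_one]
    · rw [inv_left, hd]
      simp [hd1]
    · have h1 := hd2 (VV u⁻¹ g)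
      rw [← MulAut.mul_apply, ← map_mul, mul_inv_cancel, map_one, MulAut.one_apply, ← act_mul,
        inv_mul_cancel, act_one] at h1
      rw [h1]
      group
  induction u using FreeGroup.induction_on with
  | C1 =>
    intro z
    refine ⟨1, rfl, rfl, fun g => ?_⟩
    rw [map_one, MulAut.one_apply, act_one, one_mul, inv_one, mul_one]
  | of i =>
    intro z
    fin_cases i
    · refine ⟨dA (tri c z), rfl, ?_, fun g => ?_⟩
      · simp [dA]
      · change psi (tri c z) (VV (of 0) g) = dA (tri c z) * psi (tri c (act c (of 0) z)) g * _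
        rw [VV_0, psi_XX, qA_tri]
    · refine ⟨dB (tri c z), rfl, ?_, fun g => ?_⟩
      · simp [dB]
      · change psi (tri c z) (VV (of 1) g) = dB (tri c z) * psi (tri c (act c (of 1) z)) g * _
        rw [VV_1, psi_YY, qB_tri]
  | inv_of i ih => exact hinv _ ih
  | mul u v hu hv =>
    intro z
    obtain ⟨d, hd, hd1, hd2⟩ := hu z
    obtain ⟨e, he, he1, he2⟩ := hv (act c u z)
    refine ⟨d * e, ?_, ?_, fun g => ?_⟩
    · rw [mul_right, hd, he, one_mul]
    · rw [mul_left, hd]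
      simp [hd1, he1]
    · rw [map_mul, MulAut.mul_apply, hd2, he2, act_mul]
      group

/-- entries at `1` of a conjugate by an element of the base group -/
theorem conj_left {U : Type*} [Group U] (H P : U ≀ᵣ V) (hH : H.right = 1) (hP : P.right = 1) :
    (H * P * H⁻¹).left 1 = H.left 1 * P.left 1 * (H.left 1)⁻¹ := by
  simp [hH, hP]

/-- the consequences of `rel` -/
theorem rel_main (c : Rˣ × Rˣ × Rˣ) (u h : F2)
    (hyp : ∀ z : Fin 2 → R, ∀ g : F2, psi (tri c z) (VV u g) =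
      psi (tri c z) h * psi (tri c z) g * (psi (tri c z) h)⁻¹)
    (hr : (psi c h).right = 1) (z : Fin 2 → R) :
    (1 - (c.1 : R) ^ 2) • act c u z = ((1 - (c.1 : R) ^ 2) * ((psi c h).left 1 : Rˣ)) • z := by
  obtain ⟨d, hd, hd1, hd2⟩ := rel c u z
  set q := tri c z with hq
  have hHr : (psi q h).right = 1 := by rw [psi_right q c h, hr]
  have hβ : ((psi q h).left 1).c = (psi c h).left 1 := by
    have h1 := psi_map (Aff.lin : Aff R →* Rˣ) q h
    have h2 := congrArg (fun a : Rˣ ≀ᵣ V => a.left 1) h1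
    exact h2
  set b := (psi q h).left 1 with hb
  have key : ∀ g : F2, (psi q g).right = 1 →
      (psi (tri c (act c u z)) g).left 1 = b * (psi q g).left 1 * b⁻¹ := by
    intro g hg
    have h1 := hyp z g
    rw [hd2 g] at h1
    have h2 : (d * psi (tri c (act c u z)) g * d⁻¹).left 1 =
        (psi q h * psi q g * (psi q h)⁻¹).left 1 := congrArg (fun a : Aff R ≀ᵣ V => a.left 1) h1
    have hg' : (psi (tri c (act c u z)) g).right = 1 := by rw [psi_right _ q g, hg]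
    rw [conj_left _ _ hd hg', hd1, one_mul, inv_one, mul_one, conj_left _ _ hHr hg] at h2
    exact h2
  have h0 := congrArg Aff.z (key om (psi_om q).1)
  rw [(psi_om q).2.1, (psi_om _).2.1, Aff.conj_z] at h0
  have h1 := congrArg Aff.z (key (FreeGroup.of 1 * FreeGroup.of 1) (psi_y2 q).1)
  rw [(psi_y2 q).2, (psi_y2 _).2, Aff.conj_z] at h1
  have h3 := congrArg Aff.z (key (FreeGroup.of 0 * FreeGroup.of 0) (psi_x2 q).1)
  rw [(psi_x2 q).2, (psi_x2 _).2, Aff.conj_z] at h3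
  rw [hβ] at h0 h1 h3
  simp only [hq, tri, Aff.mul_z, Aff.mul_c, Units.val_mul, mul_zero, add_zero, zero_add] at h0 h1 h3
  set β : Rˣ := (psi c h).left 1 with hβ'
  have hc : (c.1 : R) * ((c.1⁻¹ : Rˣ) : R) = 1 := by
    rw [← Units.val_mul, mul_inv_cancel, Units.val_one]
  funext i
  fin_cases i
  · change (1 - (c.1 : R) ^ 2) * act c u z 0 = (1 - (c.1 : R) ^ 2) * β * z 0
    linear_combination (1 - (c.1 : R) ^ 2) * h1 - (1 - c.2.1 * (c.1 : R)) * h0
  · change (1 - (c.1 : R) ^ 2) * act c u z 1 = (1 - (c.1 : R) ^ 2) * β * z 1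
    have h4 : (c.1 : R) * ((1 - (c.1 : R) ^ 2) * act c u z 1) =
        (c.1 : R) * ((1 - (c.1 : R) ^ 2) * β * z 1) := by
      linear_combination (1 - (c.1 : R) ^ 2) * h3 - (1 - c.1 * (c.2.2 : R)) * h0
    exact c.1.isUnit.mul_left_cancel h4

end Pool.MP_22db8c_al
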