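import Pool.Agent.H.MP_22db8c_al.Word
import Pool.Agent.H.MP_59b15d_al.h94b.Twist

set_option autoImplicit false

/-!
MP_22db8c_al: the main theorem in terms of the words in the twists.
-/

namespace Pool.MP_22db8c_al

open RegularWreathProduct Matrix
open Pool.MP_59b15d_al.H76

universe u

/-- `f` is conjugation by `k` in all homomorphisms to `Q` -/
def Rel (f : MulAut F2) (k : F2) (Q : Type*) [Group Q] : Prop :=
  ∀ (ψ : F2 →* Q) (x : F2), ψ (f x) = ψ k * ψ x * (ψ k)⁻¹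

theorem Rel.fst {f : MulAut F2} {k : F2} {Q1 Q2 : Type*} [Group Q1] [Group Q2]
    (h : Rel f k (Q1 × Q2)) : Rel f k Q1 := by
  intro ψ x
  exact congrArg Prod.fst (h (ψ.prod 1) x)

theorem Rel.snd {f : MulAut F2} {k : F2} {Q1 Q2 : Type*} [Group Q1] [Group Q2]
    (h : Rel f k (Q1 × Q2)) : Rel f k Q2 := by
  intro ψ x
  exact congrArg Prod.snd (h ((1 : F2 →* Q1).prod ψ) x)

theorem prod_derived {Q1 Q2 : Type*} [Group Q1] [Group Q2] (h1 : derivedSeries Q1 3 = ⊥)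
    (h2 : derivedSeries Q2 3 = ⊥) : derivedSeries (Q1 × Q2) 3 = ⊥ := by
  rw [eq_bot_iff]
  intro x hx
  have h3 := map_derivedSeries_le_derivedSeries (MonoidHom.fst Q1 Q2) 3 ⟨x, hx, rfl⟩
  have h4 := map_derivedSeries_le_derivedSeries (MonoidHom.snd Q1 Q2) 3 ⟨x, hx, rfl⟩
  rw [h1, Subgroup.mem_bot] at h3
  rw [h2, Subgroup.mem_bot] at h4
  exact Subgroup.mem_bot.2 (Prod.ext h3 h4)

theorem comm_derived (U : Type*) [CommGroup U] (n : ℕ) (hn : 1 ≤ n) : derivedSeries U n = ⊥ := by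
  rw [eq_bot_iff]
  refine (derivedSeries_antitone U hn).trans ?_
  rw [derivedSeries_one, commutator_def, Subgroup.commutator_le]
  intro a _ b _
  rw [Subgroup.mem_bot, commutatorElement_eq_one_iff_mul_comm]
  exact mul_comm a b

theorem exists_K (Q : Type*) [Group Q] [Finite Q] (hQ : derivedSeries Q 3 = ⊥) (r : ℕ)
    (hr : 3 ≤ r) : ∃ K : Subgroup (F2 ⧸ derivedSeries F2 r), K.Characteristic ∧ K.FiniteIndex ∧
      ∀ f : MulAut F2, (∃ k : F2 ⧸ derivedSeries F2 r, ∀ x : F2,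
        ((f x : F2) : F2 ⧸ derivedSeries F2 r) * (k * (x : F2 ⧸ derivedSeries F2 r) * k⁻¹)⁻¹ ∈ K) →
        ∃ k : F2, Rel f k Q := by
  have hfin : Finite ((F2 ⧸ derivedSeries F2 r) →* Q) := finite_hom
  refine ⟨⨅ ψ : (F2 ⧸ derivedSeries F2 r) →* Q, ψ.ker, ?_, ?_, ?_⟩
  · rw [Subgroup.characteristic_iff_le_comap]
    intro φ x hx
    rw [Subgroup.mem_comap, Subgroup.mem_iInf]
    intro f
    rw [Subgroup.mem_iInf] at hx
    have := hx (f.comp φ.toMonoidHom)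
    rw [MonoidHom.mem_ker] at this ⊢
    exact this
  · apply Subgroup.finiteIndex_iInf
    intro f
    exact Subgroup.finiteIndex_ker f
  · rintro f ⟨k, hk⟩
    obtain ⟨k0, rfl⟩ := QuotientGroup.mk_surjective k
    refine ⟨k0, fun ψ x => ?_⟩
    have hψ : derivedSeries F2 r ≤ ψ.ker := by
      intro y hy
      have h1 := map_derivedSeries_le_derivedSeries ψ r ⟨y, hy, rfl⟩
      have h2 := derivedSeries_antitone Q hr h1
      rw [hQ, Subgroup.mem_bot] at h2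
      exact h2
    have h1 := hk x
    rw [Subgroup.mem_iInf] at h1
    have h2 := h1 (QuotientGroup.lift (derivedSeries F2 r) ψ hψ)
    rw [MonoidHom.mem_ker, map_mul, map_inv, map_mul, map_mul, map_inv, mul_inv_eq_one] at h2
    exact h2

/-- the group which detects the class of `k` modulo the squares -/
abbrev Z3 : Type := Multiplicative (ZMod 3)

theorem right_one (u h : F2) (hyp : ∀ (q : Z3 × Z3 × Z3) (g : F2),
    psi q (VV u g) = psi q h * psi q g * (psi q h)⁻¹) {U : Type*} [Group U] (c : U × U × U) :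
    (psi c h).right = 1 := by
  set q : Z3 × Z3 × Z3 := (1, Multiplicative.ofAdd 1, Multiplicative.ofAdd 1) with hq
  rw [psi_right c q h]
  have h1 := hyp q om
  rw [VV_om] at h1
  obtain ⟨p0, p1, p2, p3, p4⟩ := psi_om q
  have h2 : (psi q om).left 1 =
      (psi q h * psi q om * (psi q h)⁻¹).left 1 := congrArg (fun a : Z3 ≀ᵣ V => a.left 1) h1
  have h3 : (psi q h * psi q om * (psi q h)⁻¹).left 1 = (psi q om).left ((psi q h).right)⁻¹ := by
    simp only [mul_left, inv_left, mul_right, inv_right, Pi.mul_apply, Pi.inv_apply, p0, mul_one,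
      mul_inv_cancel, inv_inv]
    rw [mul_right_comm, mul_inv_cancel, one_mul]
  rw [h3, p1] at h2
  rcases V_cases ((psi q h).right)⁻¹ with hv | hv | hv | hv
  · exact inv_eq_one.1 hv
  · rw [hv, p2] at h2
    exact absurd h2 (by rw [hq]; decide)
  · rw [hv, p3] at h2
    exact absurd h2 (by rw [hq]; decide)
  · rw [hv, p4] at h2
    exact absurd h2 (by rw [hq]; decide)

/-- coordinates of the abelianization modulo four -/
def chx : F2 →* Multiplicative (ZMod 4) where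
  toFun g := Multiplicative.ofAdd (toHeis (ZMod 4) g).x
  map_one' := by rw [map_one]; rfl
  map_mul' a b := by rw [map_mul]; rfl

def chy : F2 →* Multiplicative (ZMod 4) where
  toFun g := Multiplicative.ofAdd (toHeis (ZMod 4) g).y
  map_one' := by rw [map_one]; rfl
  map_mul' a b := by rw [map_mul]; rfl

theorem four_two (a b : ℤ) (h : ((a : ℤ) : ZMod 4) = ((b : ℤ) : ZMod 4)) :
    ((a : ℤ) : ZMod 2) = ((b : ℤ) : ZMod 2) := by
  rw [ZMod.intCast_eq_intCast_iff_dvd_sub] at h ⊢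
  push_cast at h ⊢
  omega

theorem form (f : MulAut F2) (k : F2) (hf : ∃ w : F2, f gc = w * gc * w⁻¹)
    (h4 : Rel f k (Multiplicative (ZMod 4))) : ∃ h u : F2, f = MulAut.conj h * VV u := by
  have hx : ∀ g : F2, (toHeis (ZMod 4) (f g)).x = (toHeis (ZMod 4) g).x := by
    intro g
    have h1 := h4 chx g
    rw [mul_comm, inv_mul_cancel_left] at h1
    exact h1
  have hy : ∀ g : F2, (toHeis (ZMod 4) (f g)).y = (toHeis (ZMod 4) g).y := by
    intro g
    have h1 := h4 chy g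
    rw [mul_comm, inv_mul_cancel_left] at h1
    exact h1
  have hPhi : f ∈ PhiI := by
    obtain ⟨w, hw⟩ := hf
    have h1 : MulAut.conj w⁻¹ * f ∈ Fx := by
      change (MulAut.conj w⁻¹ * f) gc = gc
      rw [MulAut.mul_apply, hw, MulAut.conj_apply]
      group
    have h2 := Pool.MP_59b15d_al.SymH.Fx_le_PhiI h1
    have h3 : MulAut.conj w ∈ PhiI := Subgroup.subset_closure (Or.inr (conj_QQ w))
    have h4 := PhiI.mul_mem h3 h2
    rwa [← mul_assoc, ← map_mul, mul_inv_cancel, map_one, one_mul] at h4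
  have hE : f ∈ E2 := by
    intro g
    constructor
    · have h1 := hx g
      rw [(toHeis_cast (ZMod 4) _).1, (toHeis_cast (ZMod 4) g).1] at h1
      rw [(toHeis_cast (ZMod 2) _).1, (toHeis_cast (ZMod 2) g).1]
      exact four_two _ _ h1
    · have h1 := hy g
      rw [(toHeis_cast (ZMod 4) _).2, (toHeis_cast (ZMod 4) g).2] at h1
      rw [(toHeis_cast (ZMod 2) _).2, (toHeis_cast (ZMod 2) g).2]
      exact four_two _ _ h1
  obtain ⟨h, u, hfu⟩ := QQ_form f (PhiI_QQ f hPhi hE)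
  refine ⟨h, u, ?_⟩
  rcases hfu with hfu | hfu
  · exact hfu
  · exfalso
    obtain ⟨t, s, hts⟩ := VV_mem XX_P4 YY_P4 u
    have h1 := hx (FreeGroup.of 0)
    rw [hfu, MulAut.mul_apply, MulAut.mul_apply, (conj_xy _ _ _).1, (iota_xy _ _).1, (hts _).1,
      (of0_xy _).1, (of0_xy _).2] at h1
    revert h1
    simp
    decide

theorem main_thm (R : Type u) [CommRing R] [Finite R] (X0 Y0 : GL (Fin 2) R) (r : ℕ)
    (hr : 3 ≤ r) : ∃ K : Subgroup (F2 ⧸ derivedSeries F2 r), K.Characteristic ∧ K.FiniteIndex ∧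
      ∀ f : MulAut F2, (∃ w : F2, f gc = w * gc * w⁻¹) →
        (∃ k : F2 ⧸ derivedSeries F2 r, ∀ x : F2,
        ((f x : F2) : F2 ⧸ derivedSeries F2 r) * (k * (x : F2 ⧸ derivedSeries F2 r) * k⁻¹)⁻¹ ∈ K) →
        ∃ h u : F2, f = MulAut.conj h * VV u ∧ FreeGroup.lift ![X0, Y0] u = 1 := by
  obtain ⟨B, iB, fB, hB⟩ := main_word R X0 Y0
  have hcard : Nat.card Bˣ ≠ 0 := Nat.card_pos.ne'
  obtain ⟨p, hp, hp3, hpm⟩ := Nat.exists_prime_gt_modEq_one 3 hcard
  have : Fact p.Prime := ⟨hp⟩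
  have hdvd : Nat.card Bˣ ∣ p - 1 := (Nat.modEq_iff_dvd' hp.one_le).1 hpm.symm
  have hQ : derivedSeries ((Aff B ≀ᵣ V) × (Aff (ZMod p) ≀ᵣ V) × (Z3 ≀ᵣ V) ×
      Multiplicative (ZMod 4)) 3 = ⊥ :=
    prod_derived (wr_derived_three V_comm Aff.derived)
      (prod_derived (wr_derived_three V_comm Aff.derived)
        (prod_derived (wr_derived_three V_comm (comm_derived Z3 2 (by norm_num)))
          (comm_derived _ 3 (by norm_num))))
  obtain ⟨K, hKc, hKf, hK⟩ := exists_K ((Aff B ≀ᵣ V) × (Aff (ZMod p) ≀ᵣ V) × (Z3 ≀ᵣ V) ×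
    Multiplicative (ZMod 4)) hQ r hr
  refine ⟨K, hKc, hKf, fun f hf hfk => ?_⟩
  obtain ⟨k, hk⟩ := hK f hfk
  have k1 := hk.fst
  have k2 := hk.snd.fst
  have k3 := hk.snd.snd.fst
  have k4 := hk.snd.snd.snd
  obtain ⟨h0, u, hfu⟩ := form f k hf k4
  refine ⟨h0, u, hfu, ?_⟩
  have conv : ∀ {Q : Type _} [Group Q], Rel f k Q → ∀ (ψ : F2 →* Q) (g : F2),
      ψ (VV u g) = ψ (h0⁻¹ * k) * ψ g * (ψ (h0⁻¹ * k))⁻¹ := by
    intro Q _ hQ ψ g
    have h1 := hQ ψ g
    rw [hfu, MulAut.mul_apply, MulAut.conj_apply, map_mul, map_mul, map_inv] at h1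
    have h2 : ψ (VV u g) = (ψ h0)⁻¹ * (ψ h0 * ψ (VV u g) * (ψ h0)⁻¹) * ψ h0 := by group
    rw [h2, h1, map_mul, map_inv]
    group
  have conv' : ∀ (Q : Type) [Group Q], Rel f k Q → ∀ (ψ : F2 →* Q) (g : F2),
      ψ (VV u g) = ψ (h0⁻¹ * k) * ψ g * (ψ (h0⁻¹ * k))⁻¹ := by
    intro Q _ hQ ψ g
    have h1 := hQ ψ g
    rw [hfu, MulAut.mul_apply, MulAut.conj_apply, map_mul, map_mul, map_inv] at h1
    have h2 : ψ (VV u g) = (ψ h0)⁻¹ * (ψ h0 * ψ (VV u g) * (ψ h0)⁻¹) * ψ h0 := by group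
    rw [h2, h1, map_mul, map_inv]
    group
  have hr1 : ∀ {U : Type _} [Group U] (c : U × U × U), (psi c (h0⁻¹ * k)).right = 1 :=
    fun c => right_one u (h0⁻¹ * k) (fun q g => conv' _ k3 (psi q) g) c
  have hr2 : ∀ {U : Type} [Group U] (c : U × U × U), (psi c (h0⁻¹ * k)).right = 1 :=
    fun c => right_one u (h0⁻¹ * k) (fun q g => conv' _ k3 (psi q) g) c
  obtain ⟨d1, d2, d3, d4, d5⟩ := ab_main p hp3 u (h0⁻¹ * k)
    (fun c z g => conv' _ k2 (psi (tri c z)) g) (fun c => hr2 c)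
  have hpow : ∀ n : ℤ, ((p - 1 : ℕ) : ℤ) ∣ n → ∀ b : Bˣ, b ^ n = 1 := by
    intro n hn b
    obtain ⟨m, rfl⟩ := (Int.natCast_dvd_natCast.2 hdvd).trans hn
    rw [_root_.zpow_mul, zpow_natCast, pow_card_eq_one', _root_.one_zpow]
  exact hB u (h0⁻¹ * k) (fun q g => conv k1 (psi q) g) (fun c => hr1 c) (hpow _ d1) (hpow _ d2)
    (hpow _ d3) (hpow _ d4) (hpow _ d5)

end Pool.MP_22db8c_al
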