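import Pool.Agent.H.MP_22db8c_al.Rel

set_option autoImplicit false

/-!
MP_22db8c_al: the action of the free group of twists on triples, and its consequences for
semidirect products.
-/

namespace Pool.MP_22db8c_al

open RegularWreathProduct
open FreeGroup (of)
open Pool.MP_59b15d_al.H76 (F2 XX YY VV VV_0 VV_1)

section act

variable {U : Type*} [Group U]

/-- the first twist as a permutation -/
def QA : Equiv.Perm (U × U × U) where
  toFun := qA
  invFun q := (q.1, (q.1 * q.2.2)⁻¹ * q.2.1 * (q.1 * q.2.2), q.2.2)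
  left_inv q := by
    refine Prod.ext rfl (Prod.ext ?_ rfl)
    change (q.1 * q.2.2)⁻¹ * (q.1 * q.2.2 * q.2.1 * (q.1 * q.2.2)⁻¹) * (q.1 * q.2.2) = q.2.1
    group
  right_inv q := by
    refine Prod.ext rfl (Prod.ext ?_ rfl)
    change q.1 * q.2.2 * ((q.1 * q.2.2)⁻¹ * q.2.1 * (q.1 * q.2.2)) * (q.1 * q.2.2)⁻¹ = q.2.1
    group

/-- the second twist as a permutation -/
def QB : Equiv.Perm (U × U × U) where
  toFun := qB
  invFun q := (q.1, q.2.1, (q.2.1 * q.1)⁻¹ * q.2.2 * (q.2.1 * q.1))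
  left_inv q := by
    refine Prod.ext rfl (Prod.ext rfl ?_)
    change (q.2.1 * q.1)⁻¹ * (q.2.1 * q.1 * q.2.2 * (q.2.1 * q.1)⁻¹) * (q.2.1 * q.1) = q.2.2
    group
  right_inv q := by
    refine Prod.ext rfl (Prod.ext rfl ?_)
    change q.2.1 * q.1 * ((q.2.1 * q.1)⁻¹ * q.2.2 * (q.2.1 * q.1)) * (q.2.1 * q.1)⁻¹ = q.2.2
    group

/-- the action on triples -/
def qact (u : F2) : Equiv.Perm (U × U × U) := (FreeGroup.lift ![QA⁻¹, QB⁻¹] u)⁻¹

theorem qact_0 : (qact (of 0) : Equiv.Perm (U × U × U)) = QA := by simp [qact]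
theorem qact_1 : (qact (of 1) : Equiv.Perm (U × U × U)) = QB := by simp [qact]
theorem qact_one : (qact 1 : Equiv.Perm (U × U × U)) = 1 := by simp [qact]
theorem qact_mul (u v : F2) : (qact (u * v) : Equiv.Perm (U × U × U)) = qact v * qact u := by
  rw [qact, qact, qact, map_mul, mul_inv_rev]
theorem qact_inv (u : F2) : (qact u⁻¹ : Equiv.Perm (U × U × U)) = (qact u)⁻¹ := by
  rw [qact, qact, map_inv]

/-- the twists act on the homomorphisms `psi q`, up to conjugation by an element of the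
base group with trivial first entry -/
theorem relq (u : F2) : ∀ q : U × U × U, ∃ d : U ≀ᵣ V, d.right = 1 ∧
    d.left 1 = 1 ∧ ∀ g : F2, psi q (VV u g) = d * psi (qact u q) g * d⁻¹ := by
  induction u using FreeGroup.induction_on with
  | C1 =>
    intro q
    refine ⟨1, rfl, rfl, fun g => ?_⟩
    rw [map_one, MulAut.one_apply, qact_one, Equiv.Perm.one_apply, one_mul, inv_one, mul_one]
  | of i =>
    intro q
    fin_cases i
    · refine ⟨dA q, rfl, ?_, fun g => ?_⟩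
      · simp [dA]
      · change psi q (VV (of 0) g) = dA q * psi (qact (of 0) q) g * _
        rw [VV_0, psi_XX, qact_0]
        rfl
    · refine ⟨dB q, rfl, ?_, fun g => ?_⟩
      · simp [dB]
      · change psi q (VV (of 1) g) = dB q * psi (qact (of 1) q) g * _
        rw [VV_1, psi_YY, qact_1]
        rfl
  | inv_of i ih =>
    intro q
    obtain ⟨d, hd, hd1, hd2⟩ := ih (qact (of i)⁻¹ q)
    refine ⟨d⁻¹, ?_, ?_, fun g => ?_⟩
    · rw [inv_right, hd, inv_one]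
    · rw [inv_left, hd]
      simp [hd1]
    · have h1 := hd2 (VV (of i)⁻¹ g)
      rw [← MulAut.mul_apply, ← map_mul, mul_inv_cancel, map_one, MulAut.one_apply,
        ← Equiv.Perm.mul_apply, ← qact_mul, inv_mul_cancel, qact_one, Equiv.Perm.one_apply] at h1
      rw [h1]
      group
  | mul u v hu hv =>
    intro q
    obtain ⟨d, hd, hd1, hd2⟩ := hu q
    obtain ⟨e, he, he1, he2⟩ := hv (qact u q)
    refine ⟨d * e, ?_, ?_, fun g => ?_⟩
    · rw [mul_right, hd, he, one_mul]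
    · rw [mul_left, hd]
      simp [hd1, he1]
    · rw [map_mul, MulAut.mul_apply, hd2, he2, qact_mul, Equiv.Perm.mul_apply]
      group

theorem relq_key (u h : F2) (q : U × U × U)
    (hyp : ∀ g : F2, psi q (VV u g) = psi q h * psi q g * (psi q h)⁻¹)
    (hr : (psi q h).right = 1) (g : F2) (hg : (psi q g).right = 1) :
    (psi (qact u q) g).left 1 = (psi q h).left 1 * (psi q g).left 1 * ((psi q h).left 1)⁻¹ := by
  obtain ⟨d, hd, hd1, hd2⟩ := relq u q
  have h1 := hyp g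
  rw [hd2 g] at h1
  have h2 : (d * psi (qact u q) g * d⁻¹).left 1 =
      (psi q h * psi q g * (psi q h)⁻¹).left 1 := congrArg (fun a : U ≀ᵣ V => a.left 1) h1
  have hg' : (psi (qact u q) g).right = 1 := by rw [psi_right _ q g, hg]
  rw [conj_left _ _ hd hg', hd1, one_mul, inv_one, mul_one, conj_left _ _ hr hg] at h2
  exact h2

end act

/-- a semidirect product of a group with a module -/
@[ext] structure SD (P M : Type*) where
  p : P
  m : M

namespace SD

variable {P M : Type*} [Group P] [AddCommGroup M] [DistribMulAction P M]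

instance : Mul (SD P M) := ⟨fun a b => ⟨a.p * b.p, a.m + a.p • b.m⟩⟩
instance : One (SD P M) := ⟨⟨1, 0⟩⟩
instance : Inv (SD P M) := ⟨fun a => ⟨a.p⁻¹, -(a.p⁻¹ • a.m)⟩⟩

@[simp] theorem mul_p (a b : SD P M) : (a * b).p = a.p * b.p := rfl
@[simp] theorem mul_m (a b : SD P M) : (a * b).m = a.m + a.p • b.m := rfl
@[simp] theorem one_p : (1 : SD P M).p = 1 := rfl
@[simp] theorem one_m : (1 : SD P M).m = 0 := rfl
@[simp] theorem inv_p (a : SD P M) : (a⁻¹).p = a.p⁻¹ := rfl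
@[simp] theorem inv_m (a : SD P M) : (a⁻¹).m = -(a.p⁻¹ • a.m) := rfl

instance : Group (SD P M) where
  mul_assoc a b d := by
    ext
    · simp [mul_assoc]
    · simp only [mul_p, mul_m, smul_add, mul_smul, add_assoc]
  one_mul a := by ext <;> simp
  mul_one a := by ext <;> simp
  inv_mul_cancel a := by
    ext
    · simp
    · simp only [mul_m, inv_m, inv_p, one_m, neg_add_cancel]

instance [Finite P] [Finite M] : Finite (SD P M) :=
  Finite.of_injective (fun a : SD P M => (a.p, a.m)) (by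
    rintro ⟨a, b⟩ ⟨a', b'⟩ h
    simp only [Prod.mk.injEq] at h
    exact SD.ext h.1 h.2)

/-- the projection -/
def pr : SD P M →* P where
  toFun := SD.p
  map_one' := rfl
  map_mul' _ _ := rfl

theorem conj_one (x : SD P M) (v : M) : x * ⟨1, v⟩ * x⁻¹ = ⟨1, x.p • v⟩ := by
  ext
  · simp
  · simp [mul_smul, smul_smul]

theorem conj_one' (x : SD P M) (v : M) : x⁻¹ * ⟨1, v⟩ * x = ⟨1, x.p⁻¹ • v⟩ := by
  have := conj_one x⁻¹ v
  rw [inv_inv] at this
  exact this

end SD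

section main

variable {P M : Type*} [Group P] [AddCommGroup M] [DistribMulAction P M]

/-- the power of `c0` -/
def kap (c0 : P) : F2 →* P := FreeGroup.lift ![1, c0]

/-- the homomorphism which is to be recovered -/
def phi (c0 c3 : P) : F2 →* P := FreeGroup.lift ![(c0 * c3)⁻¹, c0]

theorem kap_0 (c0 : P) : kap c0 (of 0) = 1 := by simp [kap]
theorem kap_1 (c0 : P) : kap c0 (of 1) = c0 := by simp [kap]
theorem phi_0 (c0 c3 : P) : phi c0 c3 (of 0) = (c0 * c3)⁻¹ := by simp [phi]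
theorem phi_1 (c0 c3 : P) : phi c0 c3 (of 1) = c0 := by simp [phi]

/-- the shape of the triples in the orbit -/
def Spec (c0 c3 : P) (a : P) (z : M) (q : SD P M × SD P M × SD P M) : Prop :=
  q.1 = ⟨c0, 0⟩ ∧ q.2.1 = ⟨1, a • z⟩ ∧ q.2.2.p = a * c3 * a⁻¹ ∧ a * c0 = c0 * a

theorem spec_A {c0 c3 a : P} {z : M} {q : SD P M × SD P M × SD P M} (h : Spec c0 c3 a z q) :
    Spec c0 c3 a ((c0 * c3) • z) (QA q) := by
  obtain ⟨h0, h1, h3, h4⟩ := h
  refine ⟨h0, ?_, h3, h4⟩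
  change q.1 * q.2.2 * q.2.1 * (q.1 * q.2.2)⁻¹ = _
  rw [h1, SD.conj_one, SD.mul_p, h0, h3]
  ext
  · rfl
  · change (c0 * (a * c3 * a⁻¹)) • a • z = a • (c0 * c3) • z
    rw [smul_smul, smul_smul]
    congr 1
    rw [← mul_assoc a, h4]
    group

theorem spec_A' {c0 c3 a : P} {z : M} {q : SD P M × SD P M × SD P M} (h : Spec c0 c3 a z q) :
    Spec c0 c3 a ((c0 * c3)⁻¹ • z) (QA⁻¹ q) := by
  obtain ⟨h0, h1, h3, h4⟩ := h
  refine ⟨h0, ?_, h3, h4⟩
  change (q.1 * q.2.2)⁻¹ * q.2.1 * (q.1 * q.2.2) = _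
  rw [h1, SD.conj_one', SD.mul_p, h0, h3]
  ext
  · rfl
  · change (c0 * (a * c3 * a⁻¹))⁻¹ • a • z = a • (c0 * c3)⁻¹ • z
    rw [smul_smul, smul_smul]
    congr 1
    rw [inv_mul_eq_iff_eq_mul]
    have h5 : c0 * (a * c3 * a⁻¹) * (a * (c0 * c3)⁻¹) = (c0 * a) * c3 * (c0 * c3)⁻¹ := by group
    rw [h5, ← h4]
    group

theorem spec_B {c0 c3 a : P} {z : M} {q : SD P M × SD P M × SD P M} (h : Spec c0 c3 a z q) :
    Spec c0 c3 (a * c0) (c0⁻¹ • z) (QB q) := by
  obtain ⟨h0, h1, h3, h4⟩ := h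
  refine ⟨h0, ?_, ?_, ?_⟩
  · change q.2.1 = _
    rw [h1, smul_smul, mul_assoc, mul_inv_cancel, mul_one]
  · change (q.2.1 * q.1 * q.2.2 * (q.2.1 * q.1)⁻¹).p = _
    rw [SD.mul_p, SD.mul_p, SD.inv_p, SD.mul_p, h3, h1, h0]
    change 1 * c0 * (a * c3 * a⁻¹) * (1 * c0)⁻¹ = _
    rw [h4]
    group
  · rw [h4, mul_assoc, h4]

theorem spec_B' {c0 c3 a : P} {z : M} {q : SD P M × SD P M × SD P M} (h : Spec c0 c3 a z q) :
    Spec c0 c3 (a * c0⁻¹) (c0 • z) (QB⁻¹ q) := by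
  obtain ⟨h0, h1, h3, h4⟩ := h
  have h5 : a * c0⁻¹ = c0⁻¹ * a := by
    rw [eq_inv_mul_iff_mul_eq, ← mul_assoc, ← h4, mul_inv_cancel_right]
  refine ⟨h0, ?_, ?_, ?_⟩
  · change q.2.1 = _
    rw [h1, smul_smul, inv_mul_cancel_right]
  · change ((q.2.1 * q.1)⁻¹ * q.2.2 * (q.2.1 * q.1)).p = _
    rw [SD.mul_p, SD.mul_p, SD.inv_p, SD.mul_p, h3, h1, h0]
    change (1 * c0)⁻¹ * (a * c3 * a⁻¹) * (1 * c0) = _
    rw [h5]
    group
  · rw [h5, mul_assoc, h4]
    group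

theorem spec_word (c0 c3 : P) (u : F2) : ∀ (a : P) (z : M) (q : SD P M × SD P M × SD P M),
    Spec c0 c3 a z q → Spec c0 c3 (a * kap c0 u) ((phi c0 c3 u)⁻¹ • z) (qact u q) := by
  induction u using FreeGroup.induction_on with
  | C1 =>
    intro a z q h
    rw [map_one, map_one, mul_one, inv_one, one_smul, qact_one, Equiv.Perm.one_apply]
    exact h
  | of i =>
    intro a z q h
    fin_cases i
    · change Spec c0 c3 (a * kap c0 (of 0)) ((phi c0 c3 (of 0))⁻¹ • z) (qact (of 0) q)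
      rw [kap_0, phi_0, qact_0, mul_one, inv_inv]
      exact spec_A h
    · change Spec c0 c3 (a * kap c0 (of 1)) ((phi c0 c3 (of 1))⁻¹ • z) (qact (of 1) q)
      rw [kap_1, phi_1, qact_1]
      exact spec_B h
  | inv_of i _ =>
    intro a z q h
    rw [map_inv, map_inv, inv_inv, qact_inv]
    fin_cases i
    · change Spec c0 c3 (a * (kap c0 (of 0))⁻¹) ((phi c0 c3 (of 0)) • z) ((qact (of 0))⁻¹ q)
      rw [kap_0, phi_0, qact_0, inv_one, mul_one]
      exact spec_A' h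
    · change Spec c0 c3 (a * (kap c0 (of 1))⁻¹) ((phi c0 c3 (of 1)) • z) ((qact (of 1))⁻¹ q)
      rw [kap_1, phi_1, qact_1]
      exact spec_B' h
  | mul u v hu hv =>
    intro a z q h
    have h1 := hv _ _ _ (hu a z q h)
    rw [map_mul, map_mul, mul_inv_rev, qact_mul, Equiv.Perm.mul_apply, ← mul_assoc, mul_smul]
    exact h1

/-- the main relation for semidirect products -/
theorem sd_main (c0 c3 : P) (u h : F2)
    (hyp : ∀ (q : SD P M × SD P M × SD P M) (g : F2), psi q (VV u g) =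
      psi q h * psi q g * (psi q h)⁻¹)
    (hr : (psi (c0, (1 : P), c3) h).right = 1) (z : M) (η : P)
    (hη : η = (kap c0 u)⁻¹ * (psi (c0, (1 : P), c3) h).left 1) :
    η * c0 = c0 * η ∧ η * c3 = c3 * η ∧
      ((phi c0 c3 u)⁻¹ • z - η • z) + c0 • ((phi c0 c3 u)⁻¹ • z - η • z) = 0 := by
  set q : SD P M × SD P M × SD P M := (⟨c0, 0⟩, ⟨1, z⟩, ⟨c3, 0⟩) with hq
  have hsp : Spec c0 c3 1 z q := by
    refine ⟨rfl, ?_, ?_, ?_⟩
    · rw [one_smul]
    · simp [hq]
    · simp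
  obtain ⟨s0, s1, s3, s4⟩ := spec_word c0 c3 u 1 z q hsp
  rw [one_mul] at s1 s3 s4
  have hHr : (psi q h).right = 1 := by rw [psi_right q (c0, (1 : P), c3) h, hr]
  have hβ : ((psi q h).left 1).p = (psi (c0, (1 : P), c3) h).left 1 := by
    have h1 := psi_map (SD.pr : SD P M →* P) q h
    have h2 := congrArg (fun a : P ≀ᵣ V => a.left 1) h1
    exact h2
  have k0 := relq_key u h q (hyp q) hHr om (psi_om q).1
  have k1 := relq_key u h q (hyp q) hHr (of 1 * of 1) (psi_y2 q).1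
  have k3 := relq_key u h q (hyp q) hHr (of 0 * of 0) (psi_x2 q).1
  rw [(psi_om q).2.1, (psi_om _).2.1, s0] at k0
  rw [(psi_y2 q).2, (psi_y2 _).2, s0, s1] at k1
  rw [(psi_x2 q).2, (psi_x2 _).2, s0] at k3
  have q0 : q.1 = ⟨c0, 0⟩ := rfl
  have q1 : q.2.1 = ⟨1, z⟩ := rfl
  have q3 : q.2.2.p = c3 := rfl
  rw [q0] at k0 k3
  rw [q0, q1] at k1
  set b := (psi q h).left 1 with hb
  set β : P := (psi (c0, (1 : P), c3) h).left 1 with hβ'
  have e0 : (⟨c0, 0⟩ * ⟨c0, 0⟩ : SD P M) * b = b * (⟨c0, 0⟩ * ⟨c0, 0⟩) :=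
    (mul_inv_eq_iff_eq_mul.1 k0.symm).symm
  have e1 : (⟨1, kap c0 u • (phi c0 c3 u)⁻¹ • z⟩ * ⟨c0, 0⟩ : SD P M) * b =
      b * (⟨1, z⟩ * ⟨c0, 0⟩) := by
    rw [k1, inv_mul_cancel_right]
  have e3 := congrArg SD.p k3
  have e0m := congrArg SD.m e0
  have e1p := congrArg SD.p e1
  have e1m := congrArg SD.m e1
  simp only [SD.mul_p, SD.mul_m, SD.inv_p, hβ, s3, q3, smul_zero, add_zero, zero_add, one_mul,
    one_smul, mul_smul] at e3 e0m e1p e1m
  have hc : β * c0 = c0 * β := e1p.symm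
  have hk : kap c0 u * c0 = c0 * kap c0 u := s4
  have hki : (kap c0 u)⁻¹ * c0 = c0 * (kap c0 u)⁻¹ := by
    rw [inv_mul_eq_iff_eq_mul, ← mul_assoc, hk, mul_inv_cancel_right]
  have hη0 : η * c0 = c0 * η := by
    rw [hη, mul_assoc, hc, ← mul_assoc, hki, mul_assoc]
  refine ⟨hη0, ?_, ?_⟩
  · have e4 : c0 * (kap c0 u * c3 * (kap c0 u)⁻¹) = c0 * (β * c3 * β⁻¹) := by
      rw [e3, ← mul_assoc c0, ← mul_assoc c0, ← hc]
      group
    have e5 := mul_left_cancel e4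
    rw [hη]
    have e6 : c3 = (kap c0 u)⁻¹ * (β * c3 * β⁻¹) * kap c0 u := by
      rw [← e5]
      group
    calc (kap c0 u)⁻¹ * β * c3 = ((kap c0 u)⁻¹ * (β * c3 * β⁻¹) * kap c0 u) *
        ((kap c0 u)⁻¹ * β) := by group
      _ = c3 * ((kap c0 u)⁻¹ * β) := by rw [← e6]
  · -- the translation parts
    have e7 : kap c0 u • (phi c0 c3 u)⁻¹ • z + c0 • b.m = b.m + β • z := e1m
    have e8 : c0 • c0 • b.m = b.m := by simpa using e0m
    have e9 : kap c0 u • (phi c0 c3 u)⁻¹ • z - β • z = b.m - c0 • b.m := by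
      rw [sub_eq_sub_iff_add_eq_add]
      exact e7
    have e10 : (kap c0 u • (phi c0 c3 u)⁻¹ • z - β • z) +
        c0 • (kap c0 u • (phi c0 c3 u)⁻¹ • z - β • z) = 0 := by
      rw [e9, smul_sub, e8]
      abel
    have e11 : (phi c0 c3 u)⁻¹ • z - η • z =
        (kap c0 u)⁻¹ • (kap c0 u • (phi c0 c3 u)⁻¹ • z - β • z) := by
      rw [smul_sub, inv_smul_smul, smul_smul, ← hη]
    rw [e11, smul_smul c0, ← hki, mul_smul, ← smul_add, e10, smul_zero]

end main

end Pool.MP_22db8c_al
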