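import Pool.Agent.H.MP_22db8c_al.Sol1

set_option autoImplicit false

/-!
MP_22db8c_al: the groups used for solvable quotients, and the algebra for them.
-/

namespace Pool.MP_22db8c_al

open RegularWreathProduct
open FreeGroup (of)
open Pool.MP_59b15d_al.H76 (F2 XX YY VV VV_0 VV_1)

universe u

section defs

variable (S : Type u) (B : Type u)

/-- functions from `B` to `S` -/
def FB : Type u := B → S

/-- functions together with an element of the ring -/
def MM : Type u := (B → S) × S

end defs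

section inst

variable {S B : Type u} [CommRing S] [Group B]

instance : AddCommGroup (FB S B) := inferInstanceAs (AddCommGroup (B → S))
instance : AddCommGroup (MM S B) := inferInstanceAs (AddCommGroup ((B → S) × S))
instance [Finite S] [Finite B] : Finite (FB S B) := inferInstanceAs (Finite (B → S))
instance [Finite S] [Finite B] : Finite (MM S B) := inferInstanceAs (Finite ((B → S) × S))

instance : DistribMulAction (Sˣ × B) (FB S B) where
  smul g f := fun x => (g.1 : S) * f (g.2⁻¹ * x)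
  one_smul f := by
    funext x
    change ((1 : Sˣ) : S) * f ((1 : B)⁻¹ * x) = f x
    rw [Units.val_one, one_mul, inv_one, one_mul]
  mul_smul g h f := by
    funext x
    change ((g.1 * h.1 : Sˣ) : S) * f ((g.2 * h.2)⁻¹ * x) = (g.1 : S) * ((h.1 : S) *
      f (h.2⁻¹ * (g.2⁻¹ * x)))
    rw [Units.val_mul, mul_inv_rev, mul_assoc, mul_assoc]
  smul_zero g := by
    funext x
    change (g.1 : S) * 0 = 0
    rw [mul_zero]
  smul_add g f k := by
    funext x
    change (g.1 : S) * (f (g.2⁻¹ * x) + k (g.2⁻¹ * x)) = (g.1 : S) * f (g.2⁻¹ * x) +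
      (g.1 : S) * k (g.2⁻¹ * x)
    rw [mul_add]

theorem FB_smul (g : Sˣ × B) (f : FB S B) (x : B) :
    (g • f : FB S B) x = (g.1 : S) * f (g.2⁻¹ * x) := rfl
theorem FB_add (f k : FB S B) (x : B) : (f + k : FB S B) x = f x + k x := rfl
theorem FB_neg (f : FB S B) (x : B) : (-f : FB S B) x = -f x := rfl
theorem FB_zero (x : B) : (0 : FB S B) x = 0 := rfl
theorem FB_ext {f k : FB S B} (h : ∀ x, f x = k x) : f = k := funext h

/-- the acting group -/
abbrev PG (S B : Type u) [CommRing S] [Group B] : Type u := SD (Sˣ × B) (FB S B)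

instance : DistribMulAction (PG S B) (MM S B) where
  smul g v := (fun x => (g.p.1 : S) * v.1 (g.p.2⁻¹ * x) + v.2 * g.m x, v.2)
  one_smul v := by
    refine Prod.ext (funext fun x => ?_) rfl
    change ((1 : Sˣ) : S) * v.1 ((1 : B)⁻¹ * x) + v.2 * (0 : S) = v.1 x
    rw [Units.val_one, one_mul, inv_one, one_mul, mul_zero, add_zero]
  mul_smul g h v := by
    refine Prod.ext (funext fun x => ?_) rfl
    change ((g.p.1 * h.p.1 : Sˣ) : S) * v.1 ((g.p.2 * h.p.2)⁻¹ * x) +
        v.2 * (g.m x + (g.p.1 : S) * h.m (g.p.2⁻¹ * x)) =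
      (g.p.1 : S) * ((h.p.1 : S) * v.1 (h.p.2⁻¹ * (g.p.2⁻¹ * x)) + v.2 * h.m (g.p.2⁻¹ * x)) +
        v.2 * g.m x
    rw [Units.val_mul, mul_inv_rev, mul_assoc h.p.2⁻¹]
    ring
  smul_zero g := by
    refine Prod.ext (funext fun x => ?_) rfl
    change (g.p.1 : S) * 0 + 0 * g.m x = 0
    rw [mul_zero, zero_mul, add_zero]
  smul_add g v w := by
    refine Prod.ext (funext fun x => ?_) rfl
    change (g.p.1 : S) * (v.1 (g.p.2⁻¹ * x) + w.1 (g.p.2⁻¹ * x)) + (v.2 + w.2) * g.m x =
      ((g.p.1 : S) * v.1 (g.p.2⁻¹ * x) + v.2 * g.m x) +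
        ((g.p.1 : S) * w.1 (g.p.2⁻¹ * x) + w.2 * g.m x)
    ring

theorem MM_smul1 (g : PG S B) (v : MM S B) (x : B) :
    (g • v : MM S B).1 x = (g.p.1 : S) * v.1 (g.p.2⁻¹ * x) + v.2 * g.m x := rfl
theorem MM_smul2 (g : PG S B) (v : MM S B) : (g • v : MM S B).2 = v.2 := rfl
theorem MM_add1 (v w : MM S B) (x : B) : (v + w : MM S B).1 x = v.1 x + w.1 x := rfl
theorem MM_sub1 (v w : MM S B) (x : B) : (v - w : MM S B).1 x = v.1 x - w.1 x := rfl
theorem MM_sub2 (v w : MM S B) : (v - w : MM S B).2 = v.2 - w.2 := rfl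
theorem MM_zero1 (x : B) : (0 : MM S B).1 x = 0 := rfl
theorem MM_ext {v w : MM S B} (h : ∀ x, v.1 x = w.1 x) (h2 : v.2 = w.2) : v = w :=
  Prod.ext (funext h) h2

/-- shifted multiples of a function -/
theorem iter_shift (l : Sˣ) (b : B) (f : B → S) (e : S) (h : ∀ x, f x = e * l * f (b⁻¹ * x))
    (n : ℕ) : ∀ x, f x = e ^ n * l ^ n * f ((b ^ n)⁻¹ * x) := by
  induction n with
  | zero =>
    intro x
    simp
  | succ n ih =>
    intro x
    rw [ih x, h ((b ^ n)⁻¹ * x), ← mul_assoc b⁻¹, ← mul_inv_rev, ← pow_succ]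
    ring

theorem shift_fix [Finite B] (l : Sˣ) (b : B) (f : B → S)
    (h : ∀ x, f x = l * f (b⁻¹ * x)) (x : B) : (1 - (l : S) ^ Nat.card B) * f x = 0 := by
  have h1 := iter_shift l b f 1 (fun x => by rw [one_mul]; exact h x) (Nat.card B) x
  rw [pow_card_eq_one', inv_one, one_mul, one_pow, one_mul] at h1
  linear_combination h1

theorem shift_neg [Finite B] (l : Sˣ) (b : B) (f : B → S)
    (h : ∀ x, f x + l * f (b⁻¹ * x) = 0) (x : B) :
    (1 - (l : S) ^ (2 * Nat.card B)) * f x = 0 := by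
  have h1 := iter_shift l b f (-1) (fun x => by linear_combination h x) (2 * Nat.card B) x
  rw [pow_mul' b, pow_card_eq_one', one_pow, inv_one, one_mul, pow_mul (-1 : S), neg_one_sq,
    one_pow, one_mul] at h1
  linear_combination h1

end inst

section functor

variable {P M P' M' : Type*} [Group P] [AddCommGroup M] [DistribMulAction P M] [Group P']
  [AddCommGroup M'] [DistribMulAction P' M']

/-- functoriality of the semidirect product -/
def SD.map (f : P →* P') (g : M →+ M') (h : ∀ p m, g (p • m) = f p • g m) :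
    SD P M →* SD P' M' where
  toFun a := ⟨f a.p, g a.m⟩
  map_one' := by
    apply SD.ext
    · exact map_one f
    · exact map_zero g
  map_mul' a b := by
    apply SD.ext
    · exact map_mul f _ _
    · change g (a.m + a.p • b.m) = g a.m + f a.p • g b.m
      rw [map_add, h]

theorem phi_map (f : P →* P') (c0 c3 : P) (u : F2) : f (phi c0 c3 u) = phi (f c0) (f c3) u := by
  refine hom_ext2 (f := f.comp (phi c0 c3)) (g := phi (f c0) (f c3)) ?_ ?_ u
  · rw [MonoidHom.comp_apply, phi_0, phi_0, map_inv, map_mul]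
  · rw [MonoidHom.comp_apply, phi_1, phi_1]

theorem kap_map (f : P →* P') (c0 : P) (u : F2) : f (kap c0 u) = kap (f c0) u := by
  refine hom_ext2 (f := f.comp (kap c0)) (g := kap (f c0)) ?_ ?_ u
  · rw [MonoidHom.comp_apply, kap_0, kap_0, map_one]
  · rw [MonoidHom.comp_apply, kap_1, kap_1]

end functor

end Pool.MP_22db8c_al
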