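import Pool.Agent.H.MP_22db8c_al.Sol2
import Pool.Agent.H.MP_22db8c_al.Ext

set_option autoImplicit false

/-!
MP_22db8c_al: the words in the twists and solvable quotients.
-/

namespace Pool.MP_22db8c_al

open RegularWreathProduct Polynomial
open FreeGroup (of)
open Pool.MP_59b15d_al.H76 (F2 XX YY VV VV_0 VV_1)

universe u

theorem monic_aux (R : Type u) [CommRing R] (n : ℕ) (hn : n ≠ 0) :
    ((X + C 1) ^ n - 1 : R[X]).Monic := by
  nontriviality R
  have h1 : ((X + C 1) ^ n : R[X]).Monic := (monic_X_add_C 1).pow n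
  refine h1.sub_of_left ?_
  apply degree_lt_degree
  rw [natDegree_one, (monic_X_add_C (1 : R)).natDegree_pow, natDegree_X_add_C, mul_one]
  exact Nat.pos_of_ne_zero hn

/-- a ring extension with a unit `l` near `1` whose powers are as independent as possible -/
theorem exists_ext2 (R : Type u) [CommRing R] [Finite R] (N : ℕ) (hN : N ≠ 0) :
    ∃ (S : Type u) (_ : CommRing S) (_ : Finite S) (i : R →+* S) (l : Sˣ) (π : S →+* R),
      (∀ r, π (i r) = r) ∧ π (l : S) = 1 ∧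
      ∀ s : S, (1 - (l : S) ^ (2 * N)) * (1 - (l : S) ^ N) ^ 2 * s = 0 → π s = 0 := by
  set G : R[X] := ((X + C 1) ^ (2 * N) - 1) * ((X + C 1) ^ N - 1) ^ 2 with hGdef
  have hG : G.Monic := (monic_aux R (2 * N) (by omega)).mul ((monic_aux R N hN).pow 2)
  have hm : (X * G).Monic := monic_X.mul hG
  have h1 : Module.Finite R (AdjoinRoot (X * G)) := hm.finite_adjoinRoot
  set t : AdjoinRoot (X * G) := AdjoinRoot.root (X * G) with ht
  have hGt : G.eval₂ (AdjoinRoot.of (X * G)) t = ((t + 1) ^ (2 * N) - 1) * ((t + 1) ^ N - 1) ^ 2 := by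
    simp only [hGdef, eval₂_mul, eval₂_sub, eval₂_pow, eval₂_add, eval₂_X, eval₂_C, eval₂_one,
      map_one]
  have h0 : t * (((t + 1) ^ (2 * N) - 1) * ((t + 1) ^ N - 1) ^ 2) = 0 := by
    have h2 := AdjoinRoot.eval₂_root (X * G)
    rw [eval₂_mul, eval₂_X, hGt] at h2
    exact h2
  obtain ⟨n, rfl⟩ : ∃ n, N = n + 1 := ⟨N - 1, by omega⟩
  have hA : (t + 1) ^ (2 * (n + 1)) = (t + 1) * (t + 1) ^ (2 * n + 1) := by
    rw [← pow_succ']
    congr 1
  have hB : (t + 1) ^ (n + 1) = (t + 1) * (t + 1) ^ n := pow_succ' _ _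
  have hunit : (t + 1) * (-(((t + 1) * (t + 1) ^ (2 * n + 1) - 1 - (t + 1) ^ (2 * n + 1)) +
      ((t + 1) * ((t + 1) ^ n) ^ 2 - 2 * (t + 1) ^ n) +
      (t + 1) * ((t + 1) * (t + 1) ^ (2 * n + 1) - 1 - (t + 1) ^ (2 * n + 1)) *
      ((t + 1) * ((t + 1) ^ n) ^ 2 - 2 * (t + 1) ^ n))) = 1 := by
    rw [hA, hB] at h0
    generalize (t + 1) ^ (2 * n + 1) = x at h0 ⊢
    generalize (t + 1) ^ n = y at h0 ⊢
    linear_combination -h0
  refine ⟨AdjoinRoot (X * G), inferInstance, Module.finite_of_finite R, AdjoinRoot.of _,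
    Units.mkOfMulEqOne _ _ hunit, AdjoinRoot.lift (RingHom.id R) 0 (by simp), fun r => by simp,
    ?_, ?_⟩
  · rw [Units.val_mkOfMulEqOne]
    simp [ht]
  · intro s
    rw [Units.val_mkOfMulEqOne]
    induction s using AdjoinRoot.induction_on with
    | ih P =>
      intro h
      have h2 : G.eval₂ (AdjoinRoot.of (X * G)) t = AdjoinRoot.mk (X * G) G :=
        AdjoinRoot.aeval_eq G
      have h3 : AdjoinRoot.mk (X * G) G * AdjoinRoot.mk (X * G) P = 0 := by
        rw [← h2, hGt]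
        linear_combination -h
      rw [← map_mul, AdjoinRoot.mk_eq_zero] at h3
      obtain ⟨Q, hQ⟩ := h3
      have h4 : P = X * Q := by
        apply hG.isRegular.left
        change G * P = G * (X * Q)
        rw [hQ]
        ring
      rw [AdjoinRoot.lift_mk, h4]
      simp

theorem phi_one {P : Type*} [Group P] (u : F2) : phi (1 : P) (1 : P) u = 1 := by
  refine hom_ext2 (f := phi (1 : P) (1 : P)) (g := 1) ?_ ?_ u
  · rw [phi_0, mul_one, inv_one, MonoidHom.one_apply]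
  · rw [phi_1, MonoidHom.one_apply]

section core

variable {R S B : Type u} [CommRing R] [CommRing S] [Group B]

/-- the projection to the second factor -/
def prB : PG S B →* B := (MonoidHom.snd Sˣ B).comp SD.pr

theorem prB_apply (g : PG S B) : prB g = g.p.2 := rfl

open Classical in
/-- the function with value one at one -/
noncomputable def dl : FB S B := fun x => if x = 1 then 1 else 0

theorem dl_one : (dl : FB S B) 1 = 1 := by simp [dl]
theorem dl_ne {x : B} (h : x ≠ 1) : (dl : FB S B) x = 0 := by simp [dl, h]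

theorem core_shift [Finite B] (l : Sˣ) (u h : F2)
    (hyp : ∀ (q : SD (PG S B) (MM S B) × SD (PG S B) (MM S B) × SD (PG S B) (MM S B)) (g : F2),
      psi q (VV u g) = psi q h * psi q g * (psi q h)⁻¹)
    (hr : ∀ c : PG S B × PG S B × PG S B, (psi c h).right = 1)
    (b0 b3 : B) (w0 w3 : FB S B) : ∃ η : PG S B,
      η.p = (kap ((l, b0) : Sˣ × B) u)⁻¹ *
        (psi (((l, b0) : Sˣ × B), (1 : Sˣ × B), ((1, b3) : Sˣ × B)) h).left 1 ∧
      (∀ x, η.m x + (η.p.1 : S) * w0 (η.p.2⁻¹ * x) = w0 x + (l : S) * η.m (b0⁻¹ * x)) ∧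
      (∀ x, η.m x + (η.p.1 : S) * w3 (η.p.2⁻¹ * x) = w3 x + η.m (b3⁻¹ * x)) ∧
      ∀ (z : MM S B) (x : B), (1 - (l : S) ^ (2 * Nat.card B)) *
        (((phi (⟨(l, b0), w0⟩ : PG S B) ⟨(1, b3), w3⟩ u)⁻¹ • z).1 x - (η • z).1 x) = 0 := by
  set c0 : PG S B := ⟨(l, b0), w0⟩ with hc0
  set c3 : PG S B := ⟨(1, b3), w3⟩ with hc3
  refine ⟨(kap c0 u)⁻¹ * (psi (c0, (1 : PG S B), c3) h).left 1, ?_, ?_, ?_, ?_⟩
  · have h1 := psi_map (SD.pr : PG S B →* Sˣ × B) (c0, (1 : PG S B), c3) h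
    have h2 := congrArg (fun a : (Sˣ × B) ≀ᵣ V => a.left 1) h1
    have h3 : SD.pr ((psi (c0, (1 : PG S B), c3) h).left 1) =
      (psi (((l, b0) : Sˣ × B), (1 : Sˣ × B), ((1, b3) : Sˣ × B)) h).left 1 := h2
    have h4 := kap_map (SD.pr : PG S B →* Sˣ × B) c0 u
    change (SD.pr ((kap c0 u)⁻¹ * (psi (c0, (1 : PG S B), c3) h).left 1) : Sˣ × B) = _
    rw [map_mul, map_inv, h3, h4]
    rfl
  · intro x
    have h1 := (sd_main (M := MM S B) c0 c3 u h hyp (hr _) 0 _ rfl).1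
    have h2 := congrArg (fun a : PG S B => a.m x) h1
    exact h2
  · intro x
    have h1 := (sd_main (M := MM S B) c0 c3 u h hyp (hr _) 0 _ rfl).2.1
    have h2 := congrArg (fun a : PG S B => a.m x) h1
    have h3 : ∀ a : PG S B, (c3 * a).m x = w3 x + a.m (b3⁻¹ * x) := by
      intro a
      change w3 x + ((1 : Sˣ) : S) * a.m (b3⁻¹ * x) = _
      rw [Units.val_one, one_mul]
    rw [h3] at h2
    exact h2
  · intro z x
    have h1 := (sd_main (M := MM S B) c0 c3 u h hyp (hr _) z _ rfl).2.2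
    set η := (kap c0 u)⁻¹ * (psi (c0, (1 : PG S B), c3) h).left 1 with hη
    set D : MM S B := (phi c0 c3 u)⁻¹ • z - η • z with hD
    have h2 : D.2 = 0 := by
      rw [hD, MM_sub2, MM_smul2, MM_smul2, sub_self]
    have h3 : ∀ y, D.1 y + (l : S) * D.1 (b0⁻¹ * y) = 0 := by
      intro y
      have h4 := congrArg (fun a : MM S B => a.1 y) h1
      have h5 : D.1 y + ((l : S) * D.1 (b0⁻¹ * y) + D.2 * w0 y) = 0 := h4
      rw [h2, zero_mul, add_zero] at h5
      exact h5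
    exact shift_neg l b0 D.1 h3 x

theorem alg_core [Nontrivial R] [Finite B] (i : R →+* S) (l : Sˣ) (π : S →+* R)
    (hi : ∀ r, π (i r) = r) (hl : π (l : S) = 1)
    (hreg : ∀ s : S, (1 - (l : S) ^ (2 * Nat.card B)) * (1 - (l : S) ^ Nat.card B) ^ 2 * s = 0 →
      π s = 0) (u h : F2)
    (hyp : ∀ (q : SD (PG S B) (MM S B) × SD (PG S B) (MM S B) × SD (PG S B) (MM S B)) (g : F2),
      psi q (VV u g) = psi q h * psi q g * (psi q h)⁻¹)
    (hr : ∀ c : PG S B × PG S B × PG S B, (psi c h).right = 1)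
    (b0 b3 : B) (w0 w3 : FB R B) :
    phi (⟨(1, b0), w0⟩ : PG R B) ⟨(1, b3), w3⟩ u = 1 := by
  have hne2 : (1 - (l : S) ^ (2 * Nat.card B)) ≠ 0 := by
    intro h0
    have h1 := hreg 1 (by rw [h0]; ring)
    rw [map_one] at h1
    exact one_ne_zero h1
  have hne1 : (1 - (l : S) ^ Nat.card B) ≠ 0 := by
    intro h0
    have h1 := hreg 1 (by rw [h0]; ring)
    rw [map_one] at h1
    exact one_ne_zero h1
  -- the class of `η` modulo the functions
  set e : Sˣ × B := (kap ((l, b0) : Sˣ × B) u)⁻¹ *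
        (psi (((l, b0) : Sˣ × B), (1 : Sˣ × B), ((1, b3) : Sˣ × B)) h).left 1 with he
  have he2 : e.2 = 1 ∧ (1 - (l : S) ^ Nat.card B) * ((e.1 : S) - 1) = 0 := by
    obtain ⟨η, h1, h2, h3, -⟩ := core_shift l u h hyp hr b0 b3 0 dl
    rw [h1] at h2 h3
    have h4 : ∀ x, (1 - (l : S) ^ Nat.card B) * η.m x = 0 := by
      apply shift_fix l b0 η.m
      intro x
      have := h2 x
      rw [FB_zero, FB_zero, mul_zero, add_zero, zero_add] at this
      exact this
    have h5 := h3 1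
    have h6 := h4 1
    have h7 := h4 (b3⁻¹ * 1)
    rw [dl_one] at h5
    have h8 : e.2 = 1 := by
      by_contra hcon
      rw [dl_ne (by rw [mul_one, Ne, inv_eq_one]; exact hcon)] at h5
      apply hne1
      linear_combination (-(1 - (l : S) ^ Nat.card B)) * h5 + h6 - h7
    refine ⟨h8, ?_⟩
    rw [h8, inv_one, one_mul, dl_one] at h5
    linear_combination (1 - (l : S) ^ Nat.card B) * h5 - h6 + h7
  obtain ⟨η, h1, h2, h3, h4⟩ := core_shift l u h hyp hr b0 b3 (fun x => i (w0 x))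
    (fun x => i (w3 x))
  rw [h1] at h2 h3
  set φ : PG S B := phi (⟨(l, b0), fun x => i (w0 x)⟩ : PG S B) ⟨(1, b3), fun x => i (w3 x)⟩ u
    with hφ
  -- the second component of `φ`
  have hφ2 : (φ⁻¹).p.2 = 1 := by
    by_contra hcon
    have h5 := h4 (dl, 0) (φ⁻¹).p.2
    rw [MM_smul1, MM_smul1, h1, he2.1, inv_mul_cancel, inv_one, one_mul] at h5
    change (1 - (l : S) ^ (2 * Nat.card B)) * ((((φ⁻¹).p.1 : Sˣ) : S) * (dl : FB S B) 1 +
      0 * (φ⁻¹).m (φ⁻¹).p.2 - ((e.1 : S) * (dl : FB S B) (φ⁻¹).p.2 + 0 * η.m (φ⁻¹).p.2)) = 0 at h5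
    rw [dl_one, dl_ne hcon] at h5
    apply hne2
    have h6 : (1 - (l : S) ^ (2 * Nat.card B)) * (((φ⁻¹).p.1 : Sˣ) : S) = 0 := by
      linear_combination h5
    exact (Units.mul_left_eq_zero _).1 h6
  -- the functions
  have hφm : ∀ x, π ((φ⁻¹).m x) = 0 := by
    intro x
    apply hreg
    have h5 := h4 ((0 : FB S B), 1) x
    rw [MM_smul1, MM_smul1] at h5
    change (1 - (l : S) ^ (2 * Nat.card B)) * ((((φ⁻¹).p.1 : Sˣ) : S) * 0 +
      1 * (φ⁻¹).m x - ((η.p.1 : S) * 0 + 1 * η.m x)) = 0 at h5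
    have h6 : ∀ y, (1 - (l : S) ^ Nat.card B) * ((1 - (l : S) ^ Nat.card B) * η.m y) = 0 := by
      apply shift_fix l b0 (fun y => (1 - (l : S) ^ Nat.card B) * η.m y)
      intro y
      have h7 := h2 y
      rw [he2.1, inv_one, one_mul] at h7
      linear_combination (1 - (l : S) ^ Nat.card B) * h7 - i (w0 y) * he2.2
    linear_combination (1 - (l : S) ^ Nat.card B) ^ 2 * h5 +
      (1 - (l : S) ^ (2 * Nat.card B)) * h6 x
  -- conclusion
  set g : FB S B →+ FB R B := {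
    toFun := fun f x => π (f x)
    map_zero' := by
      funext x
      exact map_zero π
    map_add' := by
      intro a b
      funext x
      exact map_add π _ _ } with hg
  set f : Sˣ × B →* Rˣ × B := (Units.map (π : S →* R)).prodMap (MonoidHom.id B) with hf
  set Pj : PG S B →* PG R B := SD.map f g (by
    intro p m
    funext x
    change π ((p.1 : S) * m (p.2⁻¹ * x)) = π (p.1 : S) * π (m (p.2⁻¹ * x))
    rw [map_mul]) with hPj
  have hc0 : Pj ⟨(l, b0), fun x => i (w0 x)⟩ = ⟨(1, b0), w0⟩ := by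
    apply SD.ext
    · refine Prod.ext (Units.ext ?_) rfl
      exact hl
    · funext x
      exact hi _
  have hc3 : Pj ⟨(1, b3), fun x => i (w3 x)⟩ = ⟨(1, b3), w3⟩ := by
    apply SD.ext
    · refine Prod.ext (Units.ext ?_) rfl
      exact map_one π
    · funext x
      exact hi _
  have h8 : Pj φ = phi (⟨(1, b0), w0⟩ : PG R B) ⟨(1, b3), w3⟩ u := by
    rw [hφ, phi_map, hc0, hc3]
  rw [← inv_eq_one, ← h8, ← map_inv]
  apply SD.ext
  · refine Prod.ext ?_ ?_
    · have h9 := phi_map ((MonoidHom.fst Rˣ B).comp (SD.pr : PG R B →* Rˣ × B))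
        (⟨(1, b0), w0⟩ : PG R B) ⟨(1, b3), w3⟩ u
      rw [← h8] at h9
      have h10 : phi (((MonoidHom.fst Rˣ B).comp (SD.pr : PG R B →* Rˣ × B)) ⟨(1, b0), w0⟩)
        (((MonoidHom.fst Rˣ B).comp (SD.pr : PG R B →* Rˣ × B)) ⟨(1, b3), w3⟩) u = 1 :=
        phi_one u
      rw [h10] at h9
      have h11 := map_inv ((MonoidHom.fst Rˣ B).comp (SD.pr : PG R B →* Rˣ × B)) (Pj φ)
      rw [h9, inv_one, ← map_inv] at h11
      exact h11
    · exact hφ2
  · funext x
    exact hφm x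

end core

end Pool.MP_22db8c_al
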