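import Pool.Agent.H.MP_22db8c_al.Sol3
import Pool.Agent.H.MP_22db8c_al.Res

set_option autoImplicit false

/-!
MP_22db8c_al: solvable quotients, main theorem in terms of the words in the twists.
-/

namespace Pool.MP_22db8c_al

open RegularWreathProduct
open FreeGroup (of)
open Pool.MP_59b15d_al.H76
open scoped commutatorElement

universe u

section derived

/-- the derived length of the semidirect product -/
theorem sd_derived {S B : Type u} [CommRing S] [Group B] (s : ℕ) (hs : 1 ≤ s)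
    (hB : derivedSeries B s = ⊥) : derivedSeries (SD (PG S B) (MM S B)) (s + 1) = ⊥ := by
  set G := SD (PG S B) (MM S B) with hG
  set h1 : G →* Sˣ := (MonoidHom.fst Sˣ B).comp
    ((SD.pr : PG S B →* Sˣ × B).comp (SD.pr : G →* PG S B)) with hh1
  set h2 : G →* B := (MonoidHom.snd Sˣ B).comp
    ((SD.pr : PG S B →* Sˣ × B).comp (SD.pr : G →* PG S B)) with hh2
  set h3 : G →* Multiplicative S := {
    toFun := fun a => Multiplicative.ofAdd a.m.2
    map_one' := rfl
    map_mul' := fun a b => rfl } with hh3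
  have k1 : derivedSeries G s ≤ h1.ker := by
    refine (derivedSeries_antitone G hs).trans ?_
    rw [derivedSeries_one]
    exact Abelianization.commutator_subset_ker _
  have k3 : derivedSeries G s ≤ h3.ker := by
    refine (derivedSeries_antitone G hs).trans ?_
    rw [derivedSeries_one]
    exact Abelianization.commutator_subset_ker _
  have k2 : ∀ a ∈ derivedSeries G s, h2 a = 1 := by
    intro a ha
    have := map_derivedSeries_le_derivedSeries h2 s ⟨a, ha, rfl⟩
    rw [hB, Subgroup.mem_bot] at this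
    exact this
  rw [eq_bot_iff, derivedSeries_succ, Subgroup.commutator_le]
  intro a ha b hb
  rw [Subgroup.mem_bot, commutatorElement_eq_one_iff_mul_comm]
  have a1 : a.p.p.1 = 1 := k1 ha
  have a2 : a.p.p.2 = 1 := k2 a ha
  have a3 : a.m.2 = 0 := k3 ha
  have b1 : b.p.p.1 = 1 := k1 hb
  have b2 : b.p.p.2 = 1 := k2 b hb
  have b3 : b.m.2 = 0 := k3 hb
  have ap : a.p.p = 1 := Prod.ext a1 a2
  have bp : b.p.p = 1 := Prod.ext b1 b2
  apply SD.ext
  · apply SD.ext
    · rw [SD.mul_p, SD.mul_p, SD.mul_p, SD.mul_p, ap, bp]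
    · rw [SD.mul_p, SD.mul_p, SD.mul_m, SD.mul_m, ap, bp, one_smul, one_smul, add_comm]
  · rw [SD.mul_m, SD.mul_m]
    apply MM_ext
    · intro x
      rw [MM_add1, MM_add1, MM_smul1, MM_smul1, a1, a2, a3, b1, b2, b3]
      simp only [Units.val_one, inv_one, one_mul, zero_mul, add_zero]
      ring
    · change a.m.2 + b.m.2 = b.m.2 + a.m.2
      ring

theorem wr_derived_succ {U : Type*} [Group U] (n : ℕ) (hU : derivedSeries U n = ⊥) :
    derivedSeries (U ≀ᵣ V) (n + 1) = ⊥ := by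
  rw [eq_bot_iff]
  refine (wr_derived V_comm n).trans ?_
  rintro a ⟨ha, ha'⟩
  rw [Subgroup.mem_bot]
  apply RegularWreathProduct.ext
  · funext v
    have := ha' v
    rw [hU, Subgroup.mem_bot] at this
    rw [this]
    rfl
  · exact ha

theorem prod_derived' {Q1 Q2 : Type*} [Group Q1] [Group Q2] (m : ℕ)
    (h1 : derivedSeries Q1 m = ⊥) (h2 : derivedSeries Q2 m = ⊥) :
    derivedSeries (Q1 × Q2) m = ⊥ := by
  rw [eq_bot_iff]
  intro x hx
  have h3 := map_derivedSeries_le_derivedSeries (MonoidHom.fst Q1 Q2) m ⟨x, hx, rfl⟩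
  have h4 := map_derivedSeries_le_derivedSeries (MonoidHom.snd Q1 Q2) m ⟨x, hx, rfl⟩
  rw [h1, Subgroup.mem_bot] at h3
  rw [h2, Subgroup.mem_bot] at h4
  exact Subgroup.mem_bot.2 (Prod.ext h3 h4)

theorem exists_K' (Q : Type*) [Group Q] [Finite Q] (m : ℕ) (hQ : derivedSeries Q m = ⊥) (r : ℕ)
    (hr : m ≤ r) : ∃ K : Subgroup (F2 ⧸ derivedSeries F2 r), K.Characteristic ∧ K.FiniteIndex ∧
      ∀ f : MulAut F2, (∃ k : F2 ⧸ derivedSeries F2 r, ∀ x : F2,
        ((f x : F2) : F2 ⧸ derivedSeries F2 r) * (k * (x : F2 ⧸ derivedSeries F2 r) * k⁻¹)⁻¹ ∈ K) →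
        ∃ k : F2, Rel f k Q := by
  have hfin : Finite ((F2 ⧸ derivedSeries F2 r) →* Q) := finite_hom
  refine ⟨⨅ ψ : (F2 ⧸ derivedSeries F2 r) →* Q, ψ.ker, ?_, ?_, ?_⟩
  · rw [Subgroup.characteristic_iff_le_comap]
    intro φ x hx
    rw [Subgroup.mem_comap, Subgroup.mem_iInf]
    intro f
    rw [Subgroup.mem_iInf] at hx
    have := hx (f.comp φ.toMonoidHom)
    rw [MonoidHom.mem_ker] at this ⊢
    exact this
  · apply Subgroup.finiteIndex_iInf
    intro f
    exact Subgroup.finiteIndex_ker f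
  · rintro f ⟨k, hk⟩
    obtain ⟨k0, rfl⟩ := QuotientGroup.mk_surjective k
    refine ⟨k0, fun ψ x => ?_⟩
    have hψ : derivedSeries F2 r ≤ ψ.ker := by
      intro y hy
      have h1 := map_derivedSeries_le_derivedSeries ψ r ⟨y, hy, rfl⟩
      have h2 := derivedSeries_antitone Q hr h1
      rw [hQ, Subgroup.mem_bot] at h2
      exact h2
    have h1 := hk x
    rw [Subgroup.mem_iInf] at h1
    have h2 := h1 (QuotientGroup.lift (derivedSeries F2 r) ψ hψ)
    rw [MonoidHom.mem_ker, map_mul, map_inv, map_mul, map_mul, map_inv, mul_inv_eq_one] at h2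
    exact h2

end derived

section emb

variable {R P : Type u} [CommRing R] [Group P] (A : Subgroup P) [A.Normal]

theorem Dq_mem (p : P) (b : P ⧸ A) :
    (Quotient.out b)⁻¹ * p * Quotient.out ((p : P ⧸ A)⁻¹ * b) ∈ A := by
  rw [← QuotientGroup.eq_one_iff, QuotientGroup.mk_mul, QuotientGroup.mk_mul, QuotientGroup.mk_inv,
    QuotientGroup.out_eq', QuotientGroup.out_eq']
  group

/-- the cocycle of an extension -/
noncomputable def Dq (p : P) (b : P ⧸ A) : A :=
  ⟨(Quotient.out b)⁻¹ * p * Quotient.out ((p : P ⧸ A)⁻¹ * b), Dq_mem A p b⟩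

theorem Dq_one (b : P ⧸ A) : Dq A 1 b = 1 := by
  apply Subtype.ext
  change (Quotient.out b)⁻¹ * 1 * Quotient.out (((1 : P) : P ⧸ A)⁻¹ * b) = 1
  rw [QuotientGroup.mk_one, inv_one, one_mul, mul_one, inv_mul_cancel]

theorem Dq_mul (p p' : P) (b : P ⧸ A) :
    Dq A (p * p') b = Dq A p b * Dq A p' ((p : P ⧸ A)⁻¹ * b) := by
  apply Subtype.ext
  change (Quotient.out b)⁻¹ * (p * p') * Quotient.out (((p * p' : P) : P ⧸ A)⁻¹ * b) =
    (Quotient.out b)⁻¹ * p * Quotient.out ((p : P ⧸ A)⁻¹ * b) *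
      ((Quotient.out ((p : P ⧸ A)⁻¹ * b))⁻¹ * p' *
        Quotient.out ((p' : P ⧸ A)⁻¹ * ((p : P ⧸ A)⁻¹ * b)))
  rw [QuotientGroup.mk_mul, mul_inv_rev, mul_assoc ((p' : P ⧸ A)⁻¹)]
  group

/-- the embedding of an extension with abelian kernel -/
noncomputable def emb (j : A →* Multiplicative R) : P →* PG R (P ⧸ A) where
  toFun p := ⟨(1, (p : P ⧸ A)), fun b => Multiplicative.toAdd (j (Dq A p b))⟩
  map_one' := by
    apply SD.ext
    · rfl
    · funext b
      change Multiplicative.toAdd (j (Dq A 1 b)) = 0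
      rw [Dq_one, map_one]
      rfl
  map_mul' p p' := by
    apply SD.ext
    · refine Prod.ext ?_ rfl
      change (1 : Rˣ) = 1 * 1
      rw [mul_one]
    · funext b
      change Multiplicative.toAdd (j (Dq A (p * p') b)) =
        Multiplicative.toAdd (j (Dq A p b)) +
          ((1 : Rˣ) : R) * Multiplicative.toAdd (j (Dq A p' ((p : P ⧸ A)⁻¹ * b)))
      rw [Dq_mul, map_mul, Units.val_one, one_mul]
      rfl

theorem emb_injective (j : A →* Multiplicative R) (hj : Function.Injective j) :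
    Function.Injective (emb A j) := by
  rw [injective_iff_map_eq_one]
  intro p hp
  have h1 : (p : P ⧸ A) = 1 := congrArg (fun a : PG R (P ⧸ A) => a.p.2) hp
  have h2 : Multiplicative.toAdd (j (Dq A p 1)) = 0 :=
    congrArg (fun a : PG R (P ⧸ A) => a.m 1) hp
  have h3 : j (Dq A p 1) = j 1 := by
    rw [map_one]
    exact h2
  have h4 := congrArg Subtype.val (hj h3)
  change (Quotient.out (1 : P ⧸ A))⁻¹ * p * Quotient.out ((p : P ⧸ A)⁻¹ * 1) = 1 at h4
  rw [h1, inv_one, mul_one, mul_assoc, inv_mul_eq_one] at h4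
  exact (mul_eq_right.1 h4.symm)

end emb

theorem exists_j (A : Type) [Group A] [Finite A] (hA : ∀ x y : A, x * y = y * x) :
    ∃ (R : Type) (_ : CommRing R) (_ : Finite R) (_ : Nontrivial R) (j : A →* Multiplicative R),
      Function.Injective j := by
  letI : CommGroup A := { (inferInstance : Group A) with mul_comm := hA }
  obtain ⟨ι, _, n, hn, ⟨e⟩⟩ := CommGroup.equiv_prod_multiplicative_zmod_of_finite A
  haveI : ∀ i, NeZero (n i) := fun i => ⟨by have := hn i; omega⟩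
  haveI : ∀ i, Finite (ZMod (n i)) := fun i => inferInstance
  refine ⟨((i : ι) → ZMod (n i)) × ZMod 2, inferInstance, inferInstance, inferInstance,
    { toFun := fun a => Multiplicative.ofAdd (fun i => Multiplicative.toAdd (e a i), 0)
      map_one' := by
        rw [map_one]
        rfl
      map_mul' := fun a b => by
        rw [map_mul]
        apply Multiplicative.toAdd.injective
        refine Prod.ext ?_ ?_
        · rfl
        · change (0 : ZMod 2) = 0 + 0
          rw [add_zero] }, ?_⟩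
  intro a b hab
  have h1 : (fun i => Multiplicative.toAdd (e a i), (0 : ZMod 2)) =
    ((fun i => Multiplicative.toAdd (e b i), (0 : ZMod 2)) : ((i : ι) → ZMod (n i)) × ZMod 2) := hab
  have h2 := congrArg Prod.fst h1
  apply e.injective
  funext i
  exact congrFun h2 i

theorem main_sol (P : Type) [Group P] [Finite P] (s : ℕ) (hs : 1 ≤ s)
    (hP : derivedSeries P (s + 1) = ⊥) (X0 Y0 : P) (r : ℕ) (hr : s + 2 ≤ r) :
    ∃ K : Subgroup (F2 ⧸ derivedSeries F2 r), K.Characteristic ∧ K.FiniteIndex ∧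
      ∀ f : MulAut F2, (∃ w : F2, f gc = w * gc * w⁻¹) →
        (∃ k : F2 ⧸ derivedSeries F2 r, ∀ x : F2,
        ((f x : F2) : F2 ⧸ derivedSeries F2 r) * (k * (x : F2 ⧸ derivedSeries F2 r) * k⁻¹)⁻¹ ∈ K) →
        ∃ h u : F2, f = MulAut.conj h * VV u ∧ FreeGroup.lift ![X0, Y0] u = 1 := by
  set A := derivedSeries P s with hA
  have hnorm : A.Normal := derivedSeries_normal P s
  have hAcomm : ∀ x y : A, x * y = y * x := by
    intro x y
    apply Subtype.ext
    have h1 : ⁅(x : P), (y : P)⁆ ∈ derivedSeries P (s + 1) := by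
      rw [derivedSeries_succ]
      exact Subgroup.commutator_mem_commutator x.2 y.2
    rw [hP, Subgroup.mem_bot, commutatorElement_eq_one_iff_mul_comm] at h1
    exact h1
  obtain ⟨R, iR, fR, nR, j, hj⟩ := exists_j A hAcomm
  have hB : derivedSeries (P ⧸ A) s = ⊥ := by
    rw [← map_derivedSeries_eq (QuotientGroup.mk'_surjective A), ← hA,
      Subgroup.map_eq_bot_iff, QuotientGroup.ker_mk']
  have hN : Nat.card (P ⧸ A) ≠ 0 := Nat.card_pos.ne'
  obtain ⟨S, iS, fS, i, l, π, hi, hl, hreg⟩ := exists_ext2 R (Nat.card (P ⧸ A)) hN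
  set U := SD (PG S (P ⧸ A)) (MM S (P ⧸ A)) with hU
  have hQ : derivedSeries ((U ≀ᵣ V) × (Z3 ≀ᵣ V) × Multiplicative (ZMod 4)) (s + 2) = ⊥ :=
    prod_derived' _ (wr_derived_succ (s + 1) (sd_derived s hs hB))
      (prod_derived' _ (wr_derived_succ (s + 1) (comm_derived Z3 (s + 1) (by omega)))
        (comm_derived _ (s + 2) (by omega)))
  obtain ⟨K, hKc, hKf, hK⟩ := exists_K' ((U ≀ᵣ V) × (Z3 ≀ᵣ V) × Multiplicative (ZMod 4))
    (s + 2) hQ r hr
  refine ⟨K, hKc, hKf, fun f hf hfk => ?_⟩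
  obtain ⟨k, hk⟩ := hK f hfk
  have k1 := hk.fst
  have k3 := hk.snd.fst
  have k4 := hk.snd.snd
  obtain ⟨h0, u, hfu⟩ := form f k hf k4
  refine ⟨h0, u, hfu, ?_⟩
  have conv : ∀ (Q : Type) [Group Q], Rel f k Q → ∀ (ψ : F2 →* Q) (g : F2),
      ψ (VV u g) = ψ (h0⁻¹ * k) * ψ g * (ψ (h0⁻¹ * k))⁻¹ := by
    intro Q _ hQ ψ g
    have h1 := hQ ψ g
    rw [hfu, MulAut.mul_apply, MulAut.conj_apply, map_mul, map_mul, map_inv] at h1
    have h2 : ψ (VV u g) = (ψ h0)⁻¹ * (ψ h0 * ψ (VV u g) * (ψ h0)⁻¹) * ψ h0 := by group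
    rw [h2, h1, map_mul, map_inv]
    group
  have hr1 : ∀ c : PG S (P ⧸ A) × PG S (P ⧸ A) × PG S (P ⧸ A), (psi c (h0⁻¹ * k)).right = 1 :=
    fun c => right_one u (h0⁻¹ * k) (fun q g => conv _ k3 (psi q) g) c
  have key := alg_core i l π hi hl hreg u (h0⁻¹ * k) (fun q g => conv _ k1 (psi q) g) hr1
    (Y0 : P ⧸ A) ((Y0⁻¹ * X0⁻¹ : P) : P ⧸ A)
    (fun b => Multiplicative.toAdd (j (Dq A Y0 b)))
    (fun b => Multiplicative.toAdd (j (Dq A (Y0⁻¹ * X0⁻¹) b)))
  have key2 : phi (emb A j Y0) (emb A j (Y0⁻¹ * X0⁻¹)) u = 1 := key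
  have h5 : emb A j (FreeGroup.lift ![X0, Y0] u) =
      phi (emb A j Y0) (emb A j (Y0⁻¹ * X0⁻¹)) u := by
    refine hom_ext2 (f := (emb A j).comp (FreeGroup.lift ![X0, Y0]))
      (g := phi (emb A j Y0) (emb A j (Y0⁻¹ * X0⁻¹))) ?_ ?_ u
    · rw [MonoidHom.comp_apply, phi_0, ← map_mul, ← map_inv, mul_inv_cancel_left, inv_inv,
        FreeGroup.lift_apply_of]
      rfl
    · rw [MonoidHom.comp_apply, phi_1, FreeGroup.lift_apply_of]
      rfl
  apply emb_injective A j hj
  rw [h5, key2, map_one]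

end Pool.MP_22db8c_al
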