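import Pool.Agent.H.MP_22db8c_al.Ab
import Pool.Agent.H.MP_22db8c_al.Fri
import Pool.Agent.H.MP_22db8c_al.Ext

set_option autoImplicit false

/-!
MP_22db8c_al: from the affine relations to the vanishing of the word.
-/

namespace Pool.MP_22db8c_al

open RegularWreathProduct Matrix
open Pool.MP_59b15d_al.H76 (F2 XX YY VV VV_0 VV_1)

universe u

section algebra

variable {B : Type*} [CommRing B]

/-- independence of `1, X', Y', X'Y'` up to the discriminant -/
theorem indep (a1 a2 b1 b2 w y T k : B) (X Y : Matrix (Fin 2) (Fin 2) B) (v : Fin 4 → B)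
    (hX : X = !![a1, 0; w, a2]) (hY : Y = !![b2, y; 0, b1])
    (hT : w * y = T - (a1 * b2 + a2 * b1)) (hk : k • ev X Y v = 0) (i : Fin 4) :
    (T - (a1 * b2 + a2 * b1)) * (T - (a1 * b1 + a2 * b2)) * k * v i = 0 := by
  have h00 : k * (v 0 + v 1 * a1 + v 2 * b2 + v 3 * (a1 * b2)) = 0 := by
    have h := congrFun (congrFun hk 0) 0
    rw [Matrix.smul_apply, ev_00, hX, hY] at h
    simpa using h
  have h01 : k * (v 2 * y + v 3 * (a1 * y)) = 0 := by
    have h := congrFun (congrFun hk 0) 1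
    rw [Matrix.smul_apply, ev_01, hX, hY] at h
    simpa using h
  have h10 : k * (v 1 * w + v 3 * (w * b2)) = 0 := by
    have h := congrFun (congrFun hk 1) 0
    rw [Matrix.smul_apply, ev_10, hX, hY] at h
    simpa using h
  have h11 : k * (v 0 + v 1 * a2 + v 2 * b1 + v 3 * (w * y + a2 * b1)) = 0 := by
    have h := congrFun (congrFun hk 1) 1
    rw [Matrix.smul_apply, ev_11, hX, hY] at h
    simpa using h
  rw [hT] at h11
  have h3 : (T - (a1 * b2 + a2 * b1)) * (T - (a1 * b1 + a2 * b2)) * k * v 3 = 0 := by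
    linear_combination (T - (a1 * b2 + a2 * b1)) * (h11 - h00) - (a2 - a1) * y * h10 -
      (b1 - b2) * w * h01 + (k * ((a2 - a1) * (v 1 + v 3 * b2) + (b1 - b2) * (v 2 + v 3 * a1))) * hT
  have h1 : (T - (a1 * b2 + a2 * b1)) * (T - (a1 * b1 + a2 * b2)) * k * v 1 = 0 := by
    linear_combination (T - (a1 * b1 + a2 * b2)) * y * h10 - b2 * h3 -
      (T - (a1 * b1 + a2 * b2)) * k * (v 1 + v 3 * b2) * hT
  have h2 : (T - (a1 * b2 + a2 * b1)) * (T - (a1 * b1 + a2 * b2)) * k * v 2 = 0 := by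
    linear_combination (T - (a1 * b1 + a2 * b2)) * w * h01 - a1 * h3 -
      (T - (a1 * b1 + a2 * b2)) * k * (v 2 + v 3 * a1) * hT
  have h0 : (T - (a1 * b2 + a2 * b1)) * (T - (a1 * b1 + a2 * b2)) * k * v 0 = 0 := by
    linear_combination (T - (a1 * b2 + a2 * b1)) * (T - (a1 * b1 + a2 * b2)) * h00 - a1 * h1 -
      b2 * h2 - (a1 * b2) * h3
  fin_cases i
  · exact h0
  · exact h1
  · exact h2
  · exact h3

/-- scalar matrices -/
noncomputable def sc (a : Bˣ) : GL (Fin 2) B :=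
  Units.map (algebraMap B (Matrix (Fin 2) (Fin 2) B)).toMonoidHom a

theorem sc_mul_val (a : Bˣ) (M : GL (Fin 2) B) :
    ((sc a * M : GL (Fin 2) B) : Matrix (Fin 2) (Fin 2) B) = (a : B) • (M : Matrix _ _ B) := by
  rw [Units.val_mul, Algebra.smul_def]
  rfl

/-- scalar times matrix as a homomorphism -/
noncomputable def scm : Bˣ × GL (Fin 2) B →* GL (Fin 2) B where
  toFun p := sc p.1 * p.2
  map_one' := by
    apply Units.ext
    rw [sc_mul_val]
    simp
  map_mul' p q := by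
    apply Units.ext
    rw [sc_mul_val, Units.val_mul, sc_mul_val, sc_mul_val, Prod.fst_mul, Prod.snd_mul,
      Units.val_mul, Units.val_mul, smul_mul_smul_comm]

theorem lift_sc (a b : Bˣ) (c : Bˣ × Bˣ × Bˣ) (u : F2) :
    FreeGroup.lift ![sc a * Xc c, sc b * Yc c] u = sc (FreeGroup.lift ![a, b] u) * rho c u := by
  refine hom_ext2 (f := FreeGroup.lift ![sc a * Xc c, sc b * Yc c])
    (g := scm.comp ((FreeGroup.lift ![a, b]).prod (rho c))) ?_ ?_ u
  · simp [scm, rho_0]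
  · simp [scm, rho_1]

theorem sc_one : sc (1 : Bˣ) = 1 := by
  rw [sc, map_one]

end algebra

section core

variable {B : Type u} [CommRing B]

/-- the relation in the extended ring -/
theorem core_rel (a1 a2 b1 b2 μ : Bˣ) (u h : F2)
    (hyp : ∀ (q : Aff B × Aff B × Aff B) (g : F2),
      psi q (VV u g) = psi q h * psi q g * (psi q h)⁻¹)
    (hr : ∀ c : Bˣ × Bˣ × Bˣ, (psi c h).right = 1)
    (he1 : ∀ b : Bˣ, b ^ E1 u = 1) (he2 : ∀ b : Bˣ, b ^ E2' u = 1) (hk0 : ∀ b : Bˣ, b ^ K0 h = 1)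
    (hk1 : ∀ b : Bˣ, b ^ K1 h = 1) (hk3 : ∀ b : Bˣ, b ^ K3 h = 1)
    (x : Fin 7 → B) (T : B) (hT : T = μ + ((μ⁻¹ * (a1 * a2 * b1 * b2) : Bˣ) : B))
    (h0 : x 0 = a1 + a2) (h1 : x 1 = a1 * a2) (h2 : x 2 = b1 + b2) (h3 : x 3 = b1 * b2)
    (h4 : x 4 = T) (h5 : x 5 * x 1 = 1) (h6 : x 6 * x 3 = 1) (v : Fin 4 → B)
    (hv : ∀ X Y : GL (Fin 2) B, IsInv (X : Matrix (Fin 2) (Fin 2) B) Y x →
      ((FreeGroup.lift ![X, Y] u : GL (Fin 2) B) : Matrix (Fin 2) (Fin 2) B) - 1 =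
        ev (X : Matrix (Fin 2) (Fin 2) B) Y v) (i : Fin 4) :
    (T - (a1 * b2 + a2 * b1)) * (T - (a1 * b1 + a2 * b2)) *
      (T ^ 2 - (a1 * b1 + a2 * b2) ^ 2) * v i = 0 := by
  set c : Bˣ × Bˣ × Bˣ := (μ * (a2 * b2)⁻¹, b1 * a2 * μ⁻¹, a1 * b2 * μ⁻¹) with hc
  have ea : (a2 : B) * ((a2⁻¹ : Bˣ) : B) = 1 := by
    rw [← Units.val_mul, mul_inv_cancel, Units.val_one]
  have eb : (b2 : B) * ((b2⁻¹ : Bˣ) : B) = 1 := by
    rw [← Units.val_mul, mul_inv_cancel, Units.val_one]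
  have em : (μ : B) * ((μ⁻¹ : Bˣ) : B) = 1 := by
    rw [← Units.val_mul, mul_inv_cancel, Units.val_one]
  have e0 : (c.1 : B) = μ * (((a2⁻¹ : Bˣ) : B) * ((b2⁻¹ : Bˣ) : B)) := by
    rw [hc]
    simp only [Units.val_mul, mul_inv]
  have e1 : (c.2.1 : B) = b1 * a2 * ((μ⁻¹ : Bˣ) : B) := by
    rw [hc]
    simp only [Units.val_mul]
  have e3 : (c.2.2 : B) = a1 * b2 * ((μ⁻¹ : Bˣ) : B) := by
    rw [hc]
    simp only [Units.val_mul]
  set A : B := ((a2⁻¹ : Bˣ) : B) with hA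
  set D : B := ((b2⁻¹ : Bˣ) : B) with hD
  set M : B := ((μ⁻¹ : Bˣ) : B) with hM
  have hT' : T = μ + M * (a1 * a2 * b1 * b2) := by
    rw [hT]
    simp only [Units.val_mul, hM]
  -- the two matrices
  set X : GL (Fin 2) B := sc a2 * Xc c with hX
  set Y : GL (Fin 2) B := sc b2 * Yc c with hY
  have hXv : (X : Matrix (Fin 2) (Fin 2) B) =
      !![(a1 : B), 0; D * (μ - b1 * a2), (a2 : B)] := by
    rw [hX, sc_mul_val, Xc_val, Xm, e0, e1, e3]
    apply mat_ext
    · simp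
      linear_combination ((b2 : B) * a1 * μ * M * D) * ea + (a1 * μ * M) * eb + (a1 : B) * em
    · simp
    · simp
      linear_combination ((μ : B) * D - b1 * a2 * M * μ * D) * ea - (b1 * a2 * D) * em
    · simp
  have hYv : (Y : Matrix (Fin 2) (Fin 2) B) =
      !![(b2 : B), b2 * M * (μ - a1 * b2); 0, (b1 : B)] := by
    rw [hY, sc_mul_val, Yc_val, Ym, e0, e1, e3]
    apply mat_ext
    · simp
    · simp
      linear_combination (-(b2 : B)) * em
    · simp
    · simp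
      linear_combination ((b2 : B) * μ * M * D * b1) * ea + (b1 * μ * M) * eb + (b1 : B) * em
  have hwy : D * ((μ : B) - b1 * a2) * (b2 * M * (μ - a1 * b2)) =
      T - (a1 * b2 + a2 * b1) := by
    rw [hT']
    linear_combination ((μ - b1 * a2) * M * (μ - a1 * b2) : B) * eb + (μ - b1 * a2 - a1 * b2 : B) * em
  have hinv : IsInv (X : Matrix (Fin 2) (Fin 2) B) Y x := by
    refine ⟨?_, ?_, ?_, ?_, ?_, h5, h6⟩
    · rw [hXv, h0]; simp
    · rw [hXv, h1]; simp
    · rw [hYv, h2]; simp [add_comm]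
    · rw [hYv, h3]; simp [mul_comm]
    · rw [hXv, hYv, h4]
      simp
      linear_combination -hwy
  have hword := hv X Y hinv
  rw [lift_sc, lift_pair, he1, he2, mul_one, sc_one, one_mul] at hword
  -- the affine relations
  have hrel : ∀ z : Fin 2 → B, (1 - (c.1 : B) ^ 2) • act c u z = (1 - (c.1 : B) ^ 2) • z := by
    intro z
    have h7 := rel_main c u h (fun z g => hyp _ g) (hr c) z
    rw [left_one, hk0, hk1, hk3, mul_one, mul_one, Units.val_one, mul_one] at h7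
    exact h7
  have hmat : (1 - (c.1 : B) ^ 2) •
      (((rho c u : GL (Fin 2) B) : Matrix (Fin 2) (Fin 2) B) - 1) = 0 := by
    ext i j
    have h7 := congrFun (hrel (Pi.single i 1)) j
    rw [Pi.smul_apply, Pi.smul_apply, act, Matrix.single_one_vecMul] at h7
    rw [Matrix.smul_apply, Matrix.sub_apply, smul_sub]
    have h8 : (Pi.single i 1 : Fin 2 → B) j = (1 : Matrix (Fin 2) (Fin 2) B) i j := by
      rw [Matrix.one_apply, Pi.single_apply]
      by_cases hij : i = j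
      · rw [if_pos hij, if_pos hij.symm]
      · rw [if_neg hij, if_neg (Ne.symm hij)]
    rw [h8] at h7
    rw [Matrix.zero_apply, sub_eq_zero]
    exact h7
  rw [hword] at hmat
  have hk : (T ^ 2 - (a1 * b1 + a2 * b2 : B) ^ 2) •
      ev (X : Matrix (Fin 2) (Fin 2) B) Y v = 0 := by
    have h7 : T ^ 2 - (a1 * b1 + a2 * b2 : B) ^ 2 =
        -((a2 * b2) ^ 2 - (M * (a1 * a2 * b1 * b2)) ^ 2) * (1 - (c.1 : B) ^ 2) := by
      rw [hT', e0]
      have ea2 : (a2 : B) ^ 2 * A ^ 2 = 1 := by rw [← mul_pow, ea, one_pow]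
      have eb2 : (b2 : B) ^ 2 * D ^ 2 = 1 := by rw [← mul_pow, eb, one_pow]
      have em2 : (μ : B) ^ 2 * M ^ 2 = 1 := by rw [← mul_pow, em, one_pow]
      linear_combination (2 * (a1 * a2 * b1 * b2) : B) * em -
        ((μ : B) ^ 2 * (b2 ^ 2 * D ^ 2)) * ea2 - ((μ : B) ^ 2) * eb2 +
        ((μ : B) ^ 2 * M ^ 2 * a1 ^ 2 * b1 ^ 2 * (b2 ^ 2 * D ^ 2)) * ea2 +
        ((μ : B) ^ 2 * M ^ 2 * a1 ^ 2 * b1 ^ 2) * eb2 + (a1 ^ 2 * b1 ^ 2 : B) * em2
    rw [h7, mul_smul, hmat, smul_zero]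
  exact indep (a1 : B) a2 b1 b2 (D * (μ - b1 * a2)) (b2 * M * (μ - a1 * b2)) T _ _ _ v hXv hYv
    hwy hk i

theorem main_word (R : Type u) [CommRing R] [Finite R] (X0 Y0 : GL (Fin 2) R) :
    ∃ (B : Type u) (_ : CommRing B) (_ : Finite B), ∀ u h : F2,
      (∀ (q : Aff B × Aff B × Aff B) (g : F2),
        psi q (VV u g) = psi q h * psi q g * (psi q h)⁻¹) →
      (∀ c : Bˣ × Bˣ × Bˣ, (psi c h).right = 1) →
      (∀ b : Bˣ, b ^ E1 u = 1) → (∀ b : Bˣ, b ^ E2' u = 1) → (∀ b : Bˣ, b ^ K0 h = 1) →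
      (∀ b : Bˣ, b ^ K1 h = 1) → (∀ b : Bˣ, b ^ K3 h = 1) →
      FreeGroup.lift ![X0, Y0] u = 1 := by
  set X : Matrix (Fin 2) (Fin 2) R := X0.val with hX
  set Y : Matrix (Fin 2) (Fin 2) R := Y0.val with hY
  obtain ⟨dX', hdX⟩ : ∃ d : R, d * (X 0 0 * X 1 1 - X 0 1 * X 1 0) = 1 := by
    have h1 : IsUnit X.det := (Matrix.isUnit_iff_isUnit_det X).1 X0.isUnit
    obtain ⟨d, hd⟩ := h1.exists_left_inv
    exact ⟨d, by rw [← Matrix.det_fin_two]; exact hd⟩
  obtain ⟨dY', hdY⟩ : ∃ d : R, d * (Y 0 0 * Y 1 1 - Y 0 1 * Y 1 0) = 1 := by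
    have h1 : IsUnit Y.det := (Matrix.isUnit_iff_isUnit_det Y).1 Y0.isUnit
    obtain ⟨d, hd⟩ := h1.exists_left_inv
    exact ⟨d, by rw [← Matrix.det_fin_two]; exact hd⟩
  set xR : Fin 7 → R := ![X 0 0 + X 1 1, X 0 0 * X 1 1 - X 0 1 * X 1 0, Y 0 0 + Y 1 1,
    Y 0 0 * Y 1 1 - Y 0 1 * Y 1 0, X 0 0 * Y 0 0 + X 0 1 * Y 1 0 + (X 1 0 * Y 0 1 + X 1 1 * Y 1 1),
    dX', dY'] with hxR
  have hinvR : IsInv X Y xR := ⟨rfl, rfl, rfl, rfl, rfl, hdX, hdY⟩
  obtain ⟨Ra, iRa, fRa, fa, hfa, a, ha⟩ := exists_root R (xR 0) (xR 1)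
  obtain ⟨R1, iR1, fR1, fb, hfb, b, hb⟩ := exists_root Ra (fa (xR 2)) (fa (xR 3))
  set f : R →+* R1 := fb.comp fa with hf
  have hfinj : Function.Injective f := hfb.comp hfa
  have ha' : fb a * (f (xR 0) - fb a) = f (xR 1) := by
    rw [hf, RingHom.comp_apply, RingHom.comp_apply, ← map_sub, ← map_mul, ha]
  have hb' : b * (f (xR 2) - b) = f (xR 3) := hb
  set s1 : R1 := (f (xR 0) - fb a) * (f (xR 2) - b) + fb a * b with hs1
  set s2 : R1 := (f (xR 0) - fb a) * b + fb a * (f (xR 2) - b) with hs2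
  set G : Polynomial R1 := ((Polynomial.X + Polynomial.C (f (xR 4) - s2)) *
    (Polynomial.X + Polynomial.C (f (xR 4) - s1))) *
    ((Polynomial.X + Polynomial.C (f (xR 4) - s1)) *
    (Polynomial.X + Polynomial.C (f (xR 4) + s1))) with hG
  have hGm : G.Monic := by
    rw [hG]
    exact ((Polynomial.monic_X_add_C _).mul (Polynomial.monic_X_add_C _)).mul
      ((Polynomial.monic_X_add_C _).mul (Polynomial.monic_X_add_C _))
  obtain ⟨S, iS, fS, ι, t, π, hπι, hπt, hπG⟩ := exists_ext R1 G hGm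
  obtain ⟨B, iB, fB, j, hj, m, hm⟩ := exists_root S (ι (f (xR 4)) + t) (ι (f (xR 1 * xR 3)))
  refine ⟨B, iB, fB, fun u h hyp hr he1 he2 hk0 hk1 hk3 => ?_⟩
  -- units of `B`
  set F : R →+* B := j.comp (ι.comp f) with hF
  have u1 : IsUnit (F (xR 1)) := by
    refine IsUnit.of_mul_eq_one (F (xR 5)) ?_
    rw [← map_mul, mul_comm, hinvR.h5, map_one]
  have u3 : IsUnit (F (xR 3)) := by
    refine IsUnit.of_mul_eq_one (F (xR 6)) ?_
    rw [← map_mul, mul_comm, hinvR.h6, map_one]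
  have ea : j (ι (fb a)) * (F (xR 0) - j (ι (fb a))) = F (xR 1) := by
    have h1 := congrArg (fun r => j (ι r)) ha'
    simp only [map_mul, map_sub] at h1
    exact h1
  have eb : j (ι b) * (F (xR 2) - j (ι b)) = F (xR 3) := by
    have h1 := congrArg (fun r => j (ι r)) hb'
    simp only [map_mul, map_sub] at h1
    exact h1
  rw [← ea] at u1
  rw [← eb] at u3
  obtain ⟨a2, ha2⟩ := isUnit_of_mul_isUnit_left u1
  obtain ⟨a1, ha1⟩ := isUnit_of_mul_isUnit_right u1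
  obtain ⟨b2, hb2⟩ := isUnit_of_mul_isUnit_left u3
  obtain ⟨b1, hb1⟩ := isUnit_of_mul_isUnit_right u3
  have hm' : m * (j (ι (f (xR 4)) + t) - m) = a1 * a2 * b1 * b2 := by
    rw [hm, map_mul, map_mul, map_mul]
    change F (xR 1) * F (xR 3) = _
    rw [← ea, ← eb, ha1, ha2, hb1, hb2]
    ring
  have um : IsUnit m := by
    have h1 : IsUnit (m * (j (ι (f (xR 4)) + t) - m)) := by
      rw [hm']
      exact ⟨a1 * a2 * b1 * b2, by simp only [Units.val_mul]⟩
    exact isUnit_of_mul_isUnit_left h1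
  obtain ⟨μ, hμ⟩ := um
  -- the invariants
  set xS : Fin 7 → S := ![ι (f (xR 0)), ι (f (xR 1)), ι (f (xR 2)), ι (f (xR 3)),
    ι (f (xR 4)) + t, ι (f (xR 5)), ι (f (xR 6))] with hxS
  obtain ⟨P, hP⟩ := fricke.{u} u
  set vS : Fin 4 → S := fun i => MvPolynomial.aeval xS (P i) - (![1, 0, 0, 0] : Fin 4 → S) i
    with hvS
  have hjv : ∀ i, j (vS i) = MvPolynomial.aeval (fun k => j (xS k)) (P i) -
      (![1, 0, 0, 0] : Fin 4 → B) i := by
    intro i
    rw [hvS]
    simp only [map_sub]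
    congr 1
    · exact MvPolynomial.comp_aeval_apply xS j.toIntAlgHom (P i)
    · fin_cases i <;> simp
  have key : ∀ i, vS i * 1 = vS i := fun i => mul_one _
  have hcore : ∀ i, j (G.eval₂ ι t * vS i) = 0 := by
    intro i
    have h1 := core_rel a1 a2 b1 b2 μ u h hyp hr he1 he2 hk0 hk1 hk3 (fun k => j (xS k))
      (j (ι (f (xR 4)) + t)) (by
        have h2 : (((μ⁻¹ * (a1 * a2 * b1 * b2) : Bˣ)) : B) = j (ι (f (xR 4)) + t) - m := by
          rw [Units.val_mul, Units.inv_mul_eq_iff_eq_mul]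
          simp only [Units.val_mul]
          rw [← hm', hμ]
        rw [h2, hμ]
        ring)
      (by rw [ha1, ha2]; change F (xR 0) = _; ring)
      (by rw [ha1, ha2, mul_comm, ea]; rfl)
      (by rw [hb1, hb2]; change F (xR 2) = _; ring)
      (by rw [hb1, hb2, mul_comm, eb]; rfl)
      rfl
      (by
        change F (xR 5) * F (xR 1) = 1
        rw [← map_mul, hinvR.h5, map_one])
      (by
        change F (xR 6) * F (xR 3) = 1
        rw [← map_mul, hinvR.h6, map_one])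
      (fun i => j (vS i))
      (by
        intro X' Y' hXY
        rw [hP B X' Y' _ hXY]
        simp only [hjv]
        simp only [ev]
        simp only [Matrix.cons_val_zero, Matrix.cons_val_one, Matrix.cons_val, sub_smul, one_smul,
          zero_smul]
        abel) i
    rw [map_mul]
    have h2 : j (G.eval₂ ι t) = (j (ι (f (xR 4)) + t) - (a1 * b2 + a2 * b1)) *
        (j (ι (f (xR 4)) + t) - (a1 * b1 + a2 * b2)) *
        (j (ι (f (xR 4)) + t) ^ 2 - (a1 * b1 + a2 * b2) ^ 2) := by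
      have hFx : ∀ r, F r = j (ι (f r)) := fun _ => rfl
      rw [hG, ha1, ha2, hb1, hb2]
      simp only [Polynomial.eval₂_mul, Polynomial.eval₂_add, Polynomial.eval₂_X,
        Polynomial.eval₂_C, hs1, hs2, hFx]
      simp only [map_add, map_sub, map_mul]
      ring
    rw [h2]
    exact h1
  have hzero : ∀ i, π (vS i) = 0 := by
    intro i
    apply hπG
    apply hj
    rw [hcore i, map_zero]
  have hR : ∀ i, MvPolynomial.aeval xR (P i) = (![1, 0, 0, 0] : Fin 4 → R) i := by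
    intro i
    have h1 := hzero i
    rw [hvS] at h1
    simp only [map_sub] at h1
    have h2 : π (MvPolynomial.aeval xS (P i)) = f (MvPolynomial.aeval xR (P i)) := by
      have h3 : π (MvPolynomial.aeval xS (P i)) = MvPolynomial.aeval (fun k => π (xS k)) (P i) :=
        MvPolynomial.comp_aeval_apply xS π.toIntAlgHom (P i)
      have h4 : f (MvPolynomial.aeval xR (P i)) = MvPolynomial.aeval (fun k => f (xR k)) (P i) :=
        MvPolynomial.comp_aeval_apply xR f.toIntAlgHom (P i)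
      rw [h3, h4]
      congr 2
      funext k
      fin_cases k
      · exact hπι _
      · exact hπι _
      · exact hπι _
      · exact hπι _
      · change π (ι (f (xR 4)) + t) = f (xR 4)
        rw [map_add, hπι, hπt, add_zero]
      · exact hπι _
      · exact hπι _
    apply hfinj
    rw [← h2, sub_eq_zero.1 h1]
    fin_cases i <;> simp
  apply Units.ext
  rw [hP R X0 Y0 xR hinvR, Units.val_one]
  simp only [hR]
  simp [ev]

end core

end Pool.MP_22db8c_al
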